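import Pool.Agent.H270.SP.CntDefs

/-!
# Backward orbits tend to zero (helper196)
-/

set_option autoImplicit false

namespace Pool.Agent.H270.SP

open Matrix Polynomial Filter Topology

theorem back_gen {V : Type} [NormedAddCommGroup V] [NormedSpace ℂ V] (f : Module.End ℂ V) (μ : ℂ)
    (hμ : 1 < ‖μ‖) (ρ : ℝ) (h1 : ‖μ‖⁻¹ < ρ) :
    ∀ (k : ℕ) (x : V), ((f - μ • (1 : Module.End ℂ V)) ^ k) x = 0 →
      ∃ (y : ℕ → V) (C : ℝ), 0 ≤ C ∧ y 0 = x ∧ (∀ m, f (y (m + 1)) = y m) ∧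
        ∀ m, ‖y m‖ ≤ C * ρ ^ m := by
  have hμ0 : μ ≠ 0 := by
    intro h
    rw [h, norm_zero] at hμ
    linarith
  have hr0 : 0 ≤ ‖μ‖⁻¹ := by positivity
  have hρ : 0 < ρ := lt_of_le_of_lt hr0 h1
  intro k
  induction k with
  | zero =>
    intro x hx
    rw [pow_zero, Module.End.one_apply] at hx
    subst hx
    exact ⟨fun _ => 0, 0, le_rfl, rfl, fun _ => map_zero f, fun m => by simp⟩
  | succ k ih =>
    intro x hx
    rw [pow_succ, Module.End.mul_apply] at hx
    obtain ⟨z, C, hC, hz0, hz1, hz2⟩ := ih _ hx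
    let y : ℕ → V := fun m => Nat.rec x (fun m y => μ⁻¹ • (y - z (m + 1))) m
    have hy0 : y 0 = x := rfl
    have hy1 : ∀ m, y (m + 1) = μ⁻¹ • (y m - z (m + 1)) := fun m => rfl
    have hN : ∀ v : V, (f - μ • (1 : Module.End ℂ V)) v = f v - μ • v := by
      intro v
      rw [LinearMap.sub_apply, LinearMap.smul_apply, Module.End.one_apply]
    have hyz : ∀ m, f (y m) - μ • y m = z m := by
      intro m
      induction m with
      | zero => rw [hy0, hz0, hN]
      | succ m ihm =>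
        rw [hy1, map_smul, map_sub, hz1, smul_smul, mul_inv_cancel₀ hμ0, one_smul]
        have e : f (y m) = z m + μ • y m := by rw [← ihm]; abel
        rw [e, add_sub_right_comm, sub_self, zero_add, smul_smul, inv_mul_cancel₀ hμ0, one_smul]
        abel
    have hfy : ∀ m, f (y (m + 1)) = y m := by
      intro m
      have h := hyz (m + 1)
      have e : f (y (m + 1)) = z (m + 1) + μ • y (m + 1) := by rw [← h]; abel
      rw [e, hy1, smul_smul, mul_inv_cancel₀ hμ0, one_smul]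
      abel
    have hd : 0 < ρ - ‖μ‖⁻¹ := by linarith
    refine ⟨y, max ‖x‖ (‖μ‖⁻¹ * C * ρ / (ρ - ‖μ‖⁻¹)), le_max_of_le_left (norm_nonneg x), hy0, hfy,
      ?_⟩
    intro m
    induction m with
    | zero =>
      rw [pow_zero, mul_one, hy0]
      exact le_max_left _ _
    | succ m ihm =>
      set C' := max ‖x‖ (‖μ‖⁻¹ * C * ρ / (ρ - ‖μ‖⁻¹)) with hC'
      have h2 : ‖μ‖⁻¹ * C * ρ ≤ C' * (ρ - ‖μ‖⁻¹) := by
        rw [← div_le_iff₀ hd]
        exact le_max_right _ _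
      rw [hy1, norm_smul, norm_inv]
      have h3 : ‖y m - z (m + 1)‖ ≤ C' * ρ ^ m + C * ρ ^ (m + 1) :=
        (norm_sub_le _ _).trans (add_le_add ihm (hz2 (m + 1)))
      have hp : 0 < ρ ^ m := pow_pos hρ m
      calc ‖μ‖⁻¹ * ‖y m - z (m + 1)‖ ≤ ‖μ‖⁻¹ * (C' * ρ ^ m + C * ρ ^ (m + 1)) :=
            mul_le_mul_of_nonneg_left h3 hr0
        _ = (‖μ‖⁻¹ * C' + ‖μ‖⁻¹ * C * ρ) * ρ ^ m := by rw [pow_succ]; ring
        _ ≤ (C' * ρ) * ρ ^ m := by
            apply mul_le_mul_of_nonneg_right _ hp.le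
            linarith
        _ = C' * ρ ^ (m + 1) := by rw [pow_succ]; ring

theorem t_back : S_back := by
  intro n T x hx
  unfold outer at hx
  induction hx using Submodule.iSup_induction' with
  | mem i x hx =>
    obtain ⟨μ, hμ⟩ := i
    obtain ⟨k, hk⟩ := (Module.End.mem_maxGenEigenspace _ _ _).1 hx
    have hμ' : ‖μ‖⁻¹ < 1 := inv_lt_one_of_one_lt₀ hμ
    obtain ⟨ρ, h1, h2⟩ := exists_between hμ'
    obtain ⟨y, C, hC, hy0, hy1, hy2⟩ := back_gen (Matrix.toLin' T) μ hμ ρ h1 k x hk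
    refine ⟨y, ?_, ?_⟩
    · intro m
      induction m with
      | zero => rw [pow_zero, Matrix.one_mulVec, hy0]
      | succ m ih =>
        rw [pow_succ, ← Matrix.mulVec_mulVec]
        have h := hy1 m
        rw [Matrix.toLin'_apply] at h
        rw [h, ih]
    · apply squeeze_zero_norm hy2
      have hρ0 : 0 ≤ ρ := (inv_nonneg.2 (norm_nonneg μ)).trans h1.le
      have h := (tendsto_pow_atTop_nhds_zero_of_lt_one hρ0 h2).const_mul C
      rwa [mul_zero] at h
  | zero => exact ⟨fun _ => 0, fun m => Matrix.mulVec_zero _, tendsto_const_nhds⟩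
  | add x y _ _ hx hy =>
    obtain ⟨a, ha1, ha2⟩ := hx
    obtain ⟨b, hb1, hb2⟩ := hy
    refine ⟨fun m => a m + b m, fun m => ?_, ?_⟩
    · rw [Matrix.mulVec_add, ha1, hb1]
    · have h := ha2.add hb2
      rwa [add_zero] at h

end Pool.Agent.H270.SP
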