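import Pool.Agent.H270.SP.CntDefs

/-!
# At most `k` eigenvalues outside of the unit circle
-/

set_option autoImplicit false

namespace Pool.Agent.H270.SP

open Matrix Polynomial Filter Topology ComplexOrder

noncomputable section

/-- The form is at most as large along the orbit. -/
lemma cnt_mono {n : ℕ} (T B : Matrix (Fin n) (Fin n) ℂ)
    (hc : ∀ x, (star (T *ᵥ x) ⬝ᵥ B *ᵥ (T *ᵥ x)).re ≤ (star x ⬝ᵥ B *ᵥ x).re) (m : ℕ)
    (y : Fin n → ℂ) :
    (star ((T ^ m) *ᵥ y) ⬝ᵥ B *ᵥ ((T ^ m) *ᵥ y)).re ≤ (star y ⬝ᵥ B *ᵥ y).re := by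
  induction m with
  | zero => simp
  | succ m ih =>
    have h1 := hc ((T ^ m) *ᵥ y)
    rw [mulVec_mulVec y T (T ^ m), ← pow_succ'] at h1
    exact h1.trans ih

lemma cnt_cont {n : ℕ} (B : Matrix (Fin n) (Fin n) ℂ) :
    Continuous fun x : Fin n → ℂ => (star x ⬝ᵥ B *ᵥ x).re := by
  refine Complex.continuous_re.comp ?_
  unfold dotProduct
  refine continuous_finsetSum _ fun i _ => ?_
  refine Continuous.mul ?_ ?_
  · simp only [Pi.star_apply]
    fun_prop
  · simp only [mulVec, dotProduct]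
    fun_prop

lemma cnt_W {n k : ℕ} (v : Fin k → Fin n → ℂ) (y : Fin n → ℂ) :
    star y ⬝ᵥ ((Matrix.of v)ᴴ * Matrix.of v) *ᵥ y = ((∑ j, ‖v j ⬝ᵥ y‖ ^ 2 : ℝ) : ℂ) := by
  rw [← mulVec_mulVec, dotProduct_mulVec, vecMul_conjTranspose, star_star]
  simp only [dotProduct, Pi.star_apply]
  push_cast
  refine Finset.sum_congr rfl fun j _ => ?_
  have : (Matrix.of v *ᵥ y) j = v j ⬝ᵥ y := rfl
  rw [this, Complex.star_def, ← Complex.normSq_eq_conj_mul_self, Complex.normSq_eq_norm_sq]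
  push_cast
  rfl

theorem t_cnt (h1 : S_dim) (h2 : S_back) (h3 : S_fix) : S_cnt := by
  intro n k T B v hB hc hv hker
  refine (h1 n T).trans ?_
  by_contra hcon
  push Not at hcon
  -- a nonzero vector of `outer T` in the kernel of all the `v j`
  have hk : LinearMap.ker ((Matrix.of v).mulVecLin ∘ₗ (outer T).subtype) ≠ ⊥ := by
    apply LinearMap.ker_ne_bot_of_finrank_lt
    rw [Module.finrank_fin_fun]
    exact hcon
  obtain ⟨x, hx, hx0⟩ := Submodule.exists_mem_ne_zero_of_ne_bot hk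
  rw [LinearMap.mem_ker] at hx
  have hvx : ∀ j, v j ⬝ᵥ (x : Fin n → ℂ) = 0 := fun j => congrFun hx j
  have hx0' : (x : Fin n → ℂ) ≠ 0 := fun h => hx0 (Subtype.ext h)
  -- the form is nonpositive there
  obtain ⟨y, hy, hy0⟩ := h2 n T x x.2
  have hle : (star (x : Fin n → ℂ) ⬝ᵥ B *ᵥ (x : Fin n → ℂ)).re ≤ 0 := by
    have hlim := ((cnt_cont B).tendsto 0).comp hy0
    have e0 : (star (0 : Fin n → ℂ) ⬝ᵥ B *ᵥ (0 : Fin n → ℂ)).re = 0 := by simp
    rw [e0] at hlim
    refine ge_of_tendsto' hlim fun m => ?_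
    have := cnt_mono T B hc m (y m)
    rw [hy m] at this
    exact this
  have hge : 0 ≤ (star (x : Fin n → ℂ) ⬝ᵥ B *ᵥ (x : Fin n → ℂ)).re := by
    have := hv x
    simpa [hvx] using this
  have hQ0 := le_antisymm hle hge
  have him : ∀ z : Fin n → ℂ, star z ⬝ᵥ B *ᵥ z = (((star z ⬝ᵥ B *ᵥ z).re : ℝ) : ℂ) := by
    intro z
    have h5 : (star z ⬝ᵥ B *ᵥ z).im = 0 := hB.im_star_dotProduct_mulVec_self z
    apply Complex.ext
    · simp
    · simpa using h5
  -- the positive semidefinite form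
  have hpsd : (B + (Matrix.of v)ᴴ * Matrix.of v).PosSemidef := by
    refine Matrix.PosSemidef.of_dotProduct_mulVec_nonneg
      (hB.add (Matrix.isHermitian_conjTranspose_mul_self _)) ?_
    intro z
    rw [add_mulVec, dotProduct_add, cnt_W, him z, ← Complex.ofReal_add]
    exact_mod_cast hv z
  have hBx : B *ᵥ (x : Fin n → ℂ) = 0 := by
    have h4 : (B + (Matrix.of v)ᴴ * Matrix.of v) *ᵥ (x : Fin n → ℂ) = B *ᵥ (x : Fin n → ℂ) := by
      rw [add_mulVec, ← mulVec_mulVec]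
      have : Matrix.of v *ᵥ (x : Fin n → ℂ) = 0 := funext hvx
      rw [this, mulVec_zero, add_zero]
    rw [← h4]
    refine (hpsd.dotProduct_mulVec_zero_iff _).mp ?_
    rw [h4, him, hQ0, Complex.ofReal_zero]
  exact hx0' (h3 n T x x.2 (hker _ hBx))

end

end Pool.Agent.H270.SP
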