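import Pool.Agent.H270.SP.CntDefs

/-!
# The dimension of the outer spectral subspace
-/

set_option autoImplicit false

namespace Pool.Agent.H270.SP

open Matrix Polynomial Filter Topology

theorem dim_sum {ι V : Type} [Fintype ι] [AddCommGroup V] [Module ℂ V] [FiniteDimensional ℂ V]
    (A : ι → Submodule ℂ V) (h : iSupIndep A) (W : Submodule ℂ V) (hW : ∀ i, A i ≤ W) :
    ∑ i, Module.finrank ℂ (A i) ≤ Module.finrank ℂ W := by
  classical
  have h1 : Function.Injective (DirectSum.coeLinearMap A) := h.dfinsupp_lsum_injective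
  have h2 : LinearMap.range (DirectSum.coeLinearMap A) ≤ W := by
    rw [DirectSum.range_coeLinearMap]
    exact iSup_le hW
  have h3 := LinearMap.finrank_range_of_inj h1
  rw [Module.finrank_directSum] at h3
  rw [← h3]
  exact Submodule.finrank_mono h2

theorem t_dim : S_dim := by
  intro n T
  classical
  set R := T.charpoly.roots.filter fun z => 1 < ‖z‖ with hR
  have hmem : ∀ z : {z // z ∈ R.toFinset}, 1 < ‖(z : ℂ)‖ := by
    intro z
    exact (Multiset.mem_filter.1 (Multiset.mem_toFinset.1 z.2)).2
  have h1 := dim_sum (fun z : {z // z ∈ R.toFinset} =>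
    Module.End.maxGenEigenspace (Matrix.toLin' T) (z : ℂ))
    ((Module.End.independent_maxGenEigenspace (Matrix.toLin' T)).comp Subtype.val_injective)
    (outer T) (fun z => le_iSup (fun μ : {μ : ℂ // 1 < ‖μ‖} =>
      Module.End.maxGenEigenspace (Matrix.toLin' T) (μ : ℂ)) ⟨z, hmem z⟩)
  have h2 : (Matrix.toLin' T).charpoly = T.charpoly := by
    rw [← LinearMap.charpoly_toMatrix (Matrix.toLin' T) (Pi.basisFun ℂ (Fin n)),
      LinearMap.toMatrix_eq_toMatrix', LinearMap.toMatrix'_toLin']
  refine le_trans (le_of_eq ?_) h1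
  rw [← Multiset.toFinset_sum_count_eq R, ← Finset.sum_coe_sort]
  refine Finset.sum_congr rfl fun z _ => ?_
  rw [LinearMap.finrank_maxGenEigenspace_eq, h2, ← count_roots]
  exact Multiset.count_filter_of_pos (hmem z)

end Pool.Agent.H270.SP
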