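import Pool.Agent.H270.SP.CntDefs

/-! No fixed vectors in the outer subspace. -/

set_option autoImplicit false

namespace Pool.Agent.H270.SP

open Matrix Polynomial Filter Topology

theorem fix_mem_one {n : ℕ} (T : Matrix (Fin n) (Fin n) ℂ) (x : Fin n → ℂ) (hT : T *ᵥ x = x) :
    x ∈ Module.End.maxGenEigenspace (Matrix.toLin' T) (1 : ℂ) := by
  rw [Module.End.mem_maxGenEigenspace]
  refine ⟨1, ?_⟩
  rw [pow_one, LinearMap.sub_apply, Matrix.toLin'_apply, hT, one_smul, Module.End.one_apply, sub_self]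

theorem fix_outer_le {n : ℕ} (T : Matrix (Fin n) (Fin n) ℂ) :
    outer T ≤ ⨆ j, ⨆ (_ : j ≠ (1 : ℂ)), Module.End.maxGenEigenspace (Matrix.toLin' T) j := by
  unfold outer
  refine iSup_le fun μ => ?_
  refine le_iSup₂_of_le (μ : ℂ) ?_ le_rfl
  intro h
  have h1 := μ.2
  rw [h] at h1
  norm_num at h1

theorem t_fix : S_fix := by
  intro n T x hx hT
  have hind := Module.End.independent_maxGenEigenspace (Matrix.toLin' T)
  exact Submodule.disjoint_def.1 (hind 1) x (fix_mem_one T x hT) (fix_outer_le T hx)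

end Pool.Agent.H270.SP
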