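import Pool.Agent.H270.SP.HarDefs

set_option autoImplicit false

namespace Pool.Agent.H270.SP

open Polynomial Filter Topology MeasureTheory

noncomputable section

/-- product formula at the point `t` -/
theorem log_eval (Q : ℂ[X]) (r t : ℝ) (hrt : r * t = 1) (h : Q.eval (t : ℂ) ≠ 0) :
    Real.log ‖Q.leadingCoeff‖ + (Q.roots.map fun w => Real.log ‖1 - (r : ℂ) * w‖).sum =
      Real.log ‖Q.eval (t : ℂ)‖ - Q.natDegree * Real.log |t| := by
  have ht : t ≠ 0 := right_ne_zero_of_mul (hrt ▸ one_ne_zero)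
  have hQ0 : Q ≠ 0 := by
    rintro rfl
    simp at h
  have hrtC : (r : ℂ) * (t : ℂ) = 1 := by exact_mod_cast hrt
  have hprod : Q.eval (t : ℂ) = Q.leadingCoeff * (Q.roots.map fun w => (t : ℂ) - w).prod := by
    conv_lhs => rw [(IsAlgClosed.splits Q).eq_prod_roots]
    rw [eval_mul, eval_C, eval_multiset_prod, Multiset.map_map]
    congr 2
    refine Multiset.map_congr rfl fun w _ => ?_
    simp
  have hcard : Q.natDegree = Q.roots.card := (IsAlgClosed.splits Q).natDegree_eq_card_roots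
  have hlead : Q.leadingCoeff ≠ 0 := leadingCoeff_ne_zero.mpr hQ0
  have hroot : ∀ w ∈ Q.roots, (t : ℂ) - w ≠ 0 := by
    intro w hw h0
    rw [sub_eq_zero] at h0
    exact h (by rw [h0]; exact (mem_roots hQ0).mp hw)
  have key : ∀ s : Multiset ℂ, (∀ w ∈ s, (t : ℂ) - w ≠ 0) →
      (s.map fun w => Real.log ‖1 - (r : ℂ) * w‖).sum + s.card * Real.log |t| =
        Real.log ‖(s.map fun w => (t : ℂ) - w).prod‖ := by
    intro s
    induction s using Multiset.induction_on with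
    | empty => simp
    | cons a s ih =>
      intro h1
      have h2 := ih fun w hw => h1 w (Multiset.mem_cons_of_mem hw)
      have h3 := h1 a (Multiset.mem_cons_self a s)
      have h4 : (s.map fun w => (t : ℂ) - w).prod ≠ 0 := by
        rw [Ne, Multiset.prod_eq_zero_iff, Multiset.mem_map]
        rintro ⟨w, hw, hw0⟩
        exact h1 w (Multiset.mem_cons_of_mem hw) hw0
      have h5 : (t : ℂ) - a = (t : ℂ) * (1 - (r : ℂ) * a) := by
        linear_combination a * hrtC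
      have h6 : (1 - (r : ℂ) * a) ≠ 0 := by
        intro h7
        rw [h5, h7, mul_zero] at h3
        exact h3 rfl
      have h7 : Real.log ‖(t : ℂ) - a‖ = Real.log |t| + Real.log ‖1 - (r : ℂ) * a‖ := by
        rw [h5, norm_mul, Real.log_mul (norm_ne_zero_iff.mpr (by exact_mod_cast ht))
          (norm_ne_zero_iff.mpr h6), Complex.norm_real, Real.norm_eq_abs]
      rw [Multiset.map_cons, Multiset.sum_cons, Multiset.card_cons, Multiset.map_cons,
        Multiset.prod_cons, norm_mul, Real.log_mul (norm_ne_zero_iff.mpr h3)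
          (norm_ne_zero_iff.mpr h4), h7, ← h2]
      push_cast
      ring
  have h1 := key Q.roots hroot
  have h4 : (Q.roots.map fun w => (t : ℂ) - w).prod ≠ 0 := by
    rw [Ne, Multiset.prod_eq_zero_iff, Multiset.mem_map]
    rintro ⟨w, hw, hw0⟩
    exact hroot w hw hw0
  rw [hprod, norm_mul, Real.log_mul (norm_ne_zero_iff.mpr hlead) (norm_ne_zero_iff.mpr h4), ← h1,
    hcard]
  ring

theorem ell_ge (r : ℝ) (hr : |r| < 1) (w : ℂ) (h : 1 - (r : ℂ) * w ≠ 0) :
    Real.log ‖1 - (r : ℂ) * w‖ ≤ ell r w := by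
  unfold ell
  split_ifs with h1
  · exact le_rfl
  · push Not at h1
    refine Real.log_le_log (norm_pos_iff.mpr h) ?_
    refine abs_le_of_sq_le_sq' ?_ (norm_nonneg _) |>.2
    rw [← Complex.normSq_eq_norm_sq, ← Complex.normSq_eq_norm_sq]
    have h2 : 1 < w.re * w.re + w.im * w.im := by
      rw [← Complex.normSq_apply, Complex.normSq_eq_norm_sq]
      nlinarith
    have h3 : r ^ 2 < 1 := by
      rw [← sq_abs]
      nlinarith [abs_nonneg r]
    simp only [Complex.normSq_apply, Complex.sub_re, Complex.sub_im, Complex.one_re,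
      Complex.one_im, Complex.re_ofReal_mul, Complex.im_ofReal_mul, Complex.ofReal_re,
      Complex.ofReal_im]
    nlinarith [mul_pos (sub_pos.mpr h2) (sub_pos.mpr h3)]

theorem ell_le_out (r w : ℝ) (hr : |r| = 1 / 2) (hw : 1 < |w|) (h : r * w ≤ 0) :
    ell r (w : ℂ) ≤ Real.log ‖1 - (r : ℂ) * (w : ℂ)‖ + Real.log 2 := by
  unfold ell
  rw [if_neg (by rw [Complex.norm_real, Real.norm_eq_abs]; exact not_le.mpr hw)]
  have h1 : ‖(r : ℂ) - (w : ℂ)‖ = 1 / 2 + |w| := by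
    rw [← Complex.ofReal_sub, Complex.norm_real, Real.norm_eq_abs]
    rcases abs_cases r with ⟨h2, h3⟩ | ⟨h2, h3⟩ <;> rcases abs_cases w with ⟨h4, h5⟩ | ⟨h4, h5⟩
    · nlinarith
    · rw [abs_of_nonneg (by linarith)]
      linarith
    · rw [abs_of_nonpos (by linarith)]
      linarith
    · nlinarith
  have h2 : ‖1 - (r : ℂ) * (w : ℂ)‖ = 1 + |w| / 2 := by
    rw [← Complex.ofReal_mul, ← Complex.ofReal_one, ← Complex.ofReal_sub, Complex.norm_real,
      Real.norm_eq_abs, abs_of_nonneg (by linarith)]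
    have h3 : |r| * |w| = -(r * w) := by
      rw [← abs_mul, abs_of_nonpos h]
    rw [hr] at h3
    linarith
  rw [h1, h2, ← Real.log_mul (by positivity) (by norm_num)]
  exact Real.log_le_log (by positivity) (by linarith)

theorem J_ge (hJ : S_J) (r t : ℝ) (hrt : r * t = 1) (hr : |r| < 1) (Q : ℂ[X])
    (h : Q.eval (t : ℂ) ≠ 0) :
    Real.log ‖Q.eval (t : ℂ)‖ - Q.natDegree * Real.log |t| ≤ J r Q := by
  have hQ0 : Q ≠ 0 := by
    rintro rfl
    simp at h
  have hrtC : (r : ℂ) * (t : ℂ) = 1 := by exact_mod_cast hrt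
  rw [hJ r Q hr hQ0, ← log_eval Q r t hrt h]
  refine add_le_add le_rfl (Multiset.sum_map_le_sum_map _ _ fun w hw => ?_)
  refine ell_ge r hr w fun h0 => h ?_
  have h1 : w = (t : ℂ) := by
    linear_combination (-w) * hrtC - (t : ℂ) * h0
  rw [← h1]
  exact (mem_roots hQ0).mp hw

/-- zeros outside: at most one, and it is real -/
def OneOut (P : ℂ[X]) : Prop :=
  (∀ z ∈ P.roots, ‖z‖ ≤ 1) ∨ ∃ w : ℝ, 1 < |w| ∧ ∃ R : Multiset ℂ, P.roots = (w : ℂ) ::ₘ R ∧
    ∀ z ∈ R, ‖z‖ ≤ 1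

theorem sum_ell (r : ℝ) (R : Multiset ℂ) (h : ∀ z ∈ R, ‖z‖ ≤ 1) :
    (R.map (ell r)).sum = (R.map fun w => Real.log ‖1 - (r : ℂ) * w‖).sum := by
  congr 1
  refine Multiset.map_congr rfl fun w hw => ?_
  unfold ell
  rw [if_pos (h w hw)]

/-- choice of the point -/
theorem J_le (hJ : S_J) (P : ℂ[X]) (hP : P ≠ 0) (h : OneOut P) :
    ∃ r t : ℝ, r * t = 1 ∧ |r| = 1 / 2 ∧ |t| = 2 ∧ P.eval (t : ℂ) ≠ 0 ∧
      J r P ≤ Real.log ‖P.eval (t : ℂ)‖ - P.natDegree * Real.log |t| + Real.log 2 := by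
  rcases h with h | ⟨w, hw, R, hR, h⟩
  · have ht : P.eval ((2 : ℝ) : ℂ) ≠ 0 := by
      intro h0
      have h1 := h _ ((mem_roots hP).mpr h0)
      rw [Complex.norm_real] at h1
      norm_num at h1
    refine ⟨1 / 2, 2, by norm_num, by norm_num, by norm_num, ht, ?_⟩
    rw [hJ (1 / 2) P (by norm_num [abs_lt]) hP, ← log_eval P (1 / 2) 2 (by norm_num) ht, sum_ell _ _ h]
    linarith [Real.log_pos (show (1 : ℝ) < 2 by norm_num)]
  · obtain ⟨r, t, hrt, hr, ht, hrw, hwt⟩ : ∃ r t : ℝ, r * t = 1 ∧ |r| = 1 / 2 ∧ |t| = 2 ∧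
        r * w ≤ 0 ∧ t ≠ w := by
      rcases le_or_gt w 0 with h1 | h1
      · exact ⟨1 / 2, 2, by norm_num, by norm_num, by norm_num, by linarith, by
          intro h2; linarith⟩
      · refine ⟨-(1 / 2), -2, by norm_num, ?_, ?_, by linarith, by
          intro h2; linarith⟩
        · rw [abs_neg]; norm_num
        · rw [abs_neg]; norm_num
    have ht0 : P.eval (t : ℂ) ≠ 0 := by
      intro h0
      have h1 := (mem_roots hP).mpr h0
      rw [hR, Multiset.mem_cons] at h1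
      rcases h1 with h1 | h1
      · exact hwt (by exact_mod_cast h1)
      · have h2 := h _ h1
        rw [Complex.norm_real, Real.norm_eq_abs, ht] at h2
        norm_num at h2
    refine ⟨r, t, hrt, hr, ht, ht0, ?_⟩
    rw [hJ r P (by rw [hr]; norm_num) hP, ← log_eval P r t hrt ht0, hR, Multiset.map_cons,
      Multiset.map_cons, Multiset.sum_cons, Multiset.sum_cons, sum_ell _ _ h]
    have h1 := ell_le_out r w hr hw hrw
    linarith

theorem one_case (hJ : S_J) (hH : S_har) (r t c : ℝ) (hrt : r * t = 1) (hr : |r| = 1 / 2)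
    (P F : ℂ[X]) (hP : P ≠ 0) (hF : F ≠ 0) (hdeg : F.natDegree ≤ P.natDegree)
    (ht : |t| = 2) (hPt : P.eval (t : ℂ) ≠ 0)
    (hle : J r P ≤ Real.log ‖P.eval (t : ℂ)‖ - P.natDegree * Real.log |t| + Real.log 2)
    (hc : 0 ≤ c) (hFt : ‖P.eval (t : ℂ)‖ ≤ (1 + c) * ‖F.eval (t : ℂ)‖)
    (hz : ∀ z : ℂ, ‖z‖ = 1 → ‖F.eval z‖ ≤ ‖P.eval z‖) :
    P.mahlerMeasure ≤ (2 * (1 + c)) ^ 3 * F.mahlerMeasure := by
  have hc1 : 0 < 1 + c := by linarith
  have hFt0 : F.eval (t : ℂ) ≠ 0 := by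
    intro h0
    rw [h0, norm_zero, mul_zero] at hFt
    exact hPt (norm_eq_zero.mp (le_antisymm hFt (norm_nonneg _)))
  have h1 := J_ge hJ r t hrt (by rw [hr]; norm_num) F hFt0
  have h2 := hH r P F hr hP hF hz
  have h3 : Real.log ‖P.eval (t : ℂ)‖ ≤ Real.log (1 + c) + Real.log ‖F.eval (t : ℂ)‖ := by
    rw [← Real.log_mul hc1.ne' (norm_ne_zero_iff.mpr hFt0)]
    exact Real.log_le_log (norm_pos_iff.mpr hPt) hFt
  have h4 : (F.natDegree : ℝ) * Real.log |t| ≤ P.natDegree * Real.log |t| := by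
    refine mul_le_mul_of_nonneg_right (by exact_mod_cast hdeg) (Real.log_nonneg ?_)
    rw [ht]
    norm_num
  have h5 : P.logMahlerMeasure ≤ 3 * Real.log (2 * (1 + c)) + F.logMahlerMeasure := by
    rw [Real.log_mul (by norm_num) hc1.ne']
    linarith
  rw [Polynomial.mahlerMeasure_def_of_ne_zero hP, Polynomial.mahlerMeasure_def_of_ne_zero hF]
  calc Real.exp P.logMahlerMeasure ≤ Real.exp (3 * Real.log (2 * (1 + c)) + F.logMahlerMeasure) :=
        Real.exp_le_exp.mpr h5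
    _ = (2 * (1 + c)) ^ 3 * Real.exp F.logMahlerMeasure := by
        rw [Real.exp_add, show 3 * Real.log (2 * (1 + c)) = ((3 : ℕ) : ℝ) * Real.log (2 * (1 + c)) by
          norm_num, ← Real.log_pow, Real.exp_log (by positivity)]

theorem cmp (hJ : S_J) (hHar : S_har) (P F H : ℂ[X]) (c : ℝ) (hc : 0 ≤ c) (hP : P ≠ 0)
    (hF : F ≠ 0) (hH : H ≠ 0) (hPF : P = F + C (c : ℂ) * H)
    (hdF : F.natDegree ≤ P.natDegree) (hdH : H.natDegree ≤ P.natDegree)
    (hzF : ∀ z : ℂ, ‖z‖ = 1 → ‖F.eval z‖ ≤ ‖P.eval z‖)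
    (hzH : ∀ z : ℂ, ‖z‖ = 1 → ‖H.eval z‖ ≤ ‖P.eval z‖) (h : OneOut P) :
    P.mahlerMeasure ≤ (2 * (1 + c)) ^ 3 * max F.mahlerMeasure H.mahlerMeasure := by
  obtain ⟨r, t, hrt, hr, ht, hPt, hle⟩ := J_le hJ P hP h
  have hval : ‖P.eval (t : ℂ)‖ ≤ ‖F.eval (t : ℂ)‖ + c * ‖H.eval (t : ℂ)‖ := by
    conv_lhs => rw [hPF]
    rw [eval_add, eval_mul, eval_C]
    refine (norm_add_le _ _).trans (le_of_eq ?_)
    rw [norm_mul, Complex.norm_real, Real.norm_eq_abs, abs_of_nonneg hc]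
  have hpos : (0 : ℝ) ≤ (2 * (1 + c)) ^ 3 := by positivity
  rcases le_total ‖F.eval (t : ℂ)‖ ‖H.eval (t : ℂ)‖ with h1 | h1
  · refine (one_case hJ hHar r t c hrt hr P H hP hH hdH ht hPt hle hc ?_ hzH).trans
      (mul_le_mul_of_nonneg_left (le_max_right _ _) hpos)
    linarith
  · refine (one_case hJ hHar r t c hrt hr P F hP hF hdF ht hPt hle hc ?_ hzF).trans
      (mul_le_mul_of_nonneg_left (le_max_left _ _) hpos)
    have := mul_le_mul_of_nonneg_left h1 hc
    linarith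

end

end Pool.Agent.H270.SP
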