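import Mathlib

/-!
# Statements for the number of zeros outside of the unit circle
-/

set_option autoImplicit false

namespace Pool.Agent.H270.SP

open Matrix Polynomial Filter Topology

noncomputable section

/-- the spectral subspace of the eigenvalues outside of the unit circle -/
def outer {n : ℕ} (T : Matrix (Fin n) (Fin n) ℂ) : Submodule ℂ (Fin n → ℂ) :=
  ⨆ μ : {μ : ℂ // 1 < ‖μ‖}, Module.End.maxGenEigenspace (Matrix.toLin' T) (μ : ℂ)

/-- Its dimension is at least the number of the roots of the characteristic polynomial outside of the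
unit circle, with multiplicity. (The dimension of `maxGenEigenspace μ` is the multiplicity of the root
`μ`; in Mathlib maybe `LinearMap.finrank_maxGenEigenspace_eq` or
`Module.End.finrank_maxGenEigenspace...`, and `Module.End.independent_maxGenEigenspace`; over
`ℂ` one can also triangularise, or use that the sum of all `maxGenEigenspace` is everything.) -/
def S_dim : Prop := ∀ (n : ℕ) (T : Matrix (Fin n) (Fin n) ℂ),
  (T.charpoly.roots.filter fun z => 1 < ‖z‖).card ≤ Module.finrank ℂ (outer T)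

/-- Backward orbits tend to `0`. By sums it is enough to take `x` in one `maxGenEigenspace μ`
(induction on the nilpotency index, or: the restriction of `T` to the subspace is invertible, its
inverse has spectral radius `< 1`, and Gelfand's formula
`spectrum.pow_nnnorm_pow_one_div_tendsto_nhds_spectralRadius`). -/
def S_back : Prop := ∀ (n : ℕ) (T : Matrix (Fin n) (Fin n) ℂ) (x : Fin n → ℂ), x ∈ outer T →
  ∃ y : ℕ → (Fin n → ℂ), (∀ m, (T ^ m) *ᵥ y m = x) ∧ Tendsto y atTop (𝓝 0)

/-- No fixed vectors. (Independence of the `maxGenEigenspace`, or `S_back`-like arguments.) -/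
def S_fix : Prop := ∀ (n : ℕ) (T : Matrix (Fin n) (Fin n) ℂ) (x : Fin n → ℂ), x ∈ outer T →
  T *ᵥ x = x → x = 0

/-- At most `k` eigenvalues outside. Proof: let `h(x) = re (star x ⬝ᵥ B *ᵥ x)`. For `x` in `outer T`
with the backward orbit `y m` one has `h(x) = h(T ^ m y_m) ≤ h(y_m) → 0`, so `h ≤ 0` on `outer T`. If
the dimension of `outer T` is larger than `k` there is `x ≠ 0` in `outer T` with `v j ⬝ᵥ x = 0` for all
`j`. Then `h(x) ≥ 0`, so `h(x) = 0`, and `x` is a zero of the positive semidefinite Hermitian form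
`h(x) + ∑ ‖v j ⬝ᵥ x‖ ^ 2`, hence in its kernel (minimum: derivative along every direction, or
`Matrix.PosSemidef.dotProduct_mulVec_zero_iff`), so `B *ᵥ x = 0`, so `T *ᵥ x = x`, contradiction with
`S_fix`. -/
def S_cnt : Prop := ∀ (n k : ℕ) (T B : Matrix (Fin n) (Fin n) ℂ) (v : Fin k → Fin n → ℂ),
  B.IsHermitian →
  (∀ x, (star (T *ᵥ x) ⬝ᵥ B *ᵥ (T *ᵥ x)).re ≤ (star x ⬝ᵥ B *ᵥ x).re) →
  (∀ x, 0 ≤ (star x ⬝ᵥ B *ᵥ x).re + ∑ j, ‖v j ⬝ᵥ x‖ ^ 2) →
  (∀ x, B *ᵥ x = 0 → T *ᵥ x = x) →
  (T.charpoly.roots.filter fun z => 1 < ‖z‖).card ≤ k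

end

end Pool.Agent.H270.SP
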