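import Pool.Agent.H270.SP.Main
import Pool.Agent.H270.SP.Cmp

set_option autoImplicit false

namespace Pool.Agent.H270.SP

open Matrix Polynomial Filter Topology MeasureTheory
open Pool.Agent.W5h66.CX (pnc pnc_eval pnc_map pnc_lead pnc_natDegree pnc_ne Lor cm card_pnc
  measure_cases pos_right pos_left det_add_single toC_eq star_eval re_form star_form)
open Pool.Agent.H261R2.CM (toC ez ev1 m1 mx1 D_norm_ez D_log_m1 D_intervalIntegrable_log D_ae_ne
  LL LL_mono)

noncomputable section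

variable {n : ℕ}

theorem Sei.oneOut {U L : Matrix (Fin n) (Fin n) ℤ} {d : Fin n → ℝ} (h : Sei U L d)
    (e : Fin n → ℤ) (he : ∀ i, 0 ≤ e i) (hd : (U + diagonal e).det ≠ 0) :
    OneOut (toC (pol U L e)) := by
  have hP : toC (pol U L e) ≠ 0 := Pool.Agent.H261R2.CM.D_toC_ne _ (pol_ne U L e hd)
  rcases h.cases e he hd with ⟨h1, _⟩ | ⟨z, hz, hz0, _, _⟩
  · left
    intro z hz
    by_contra hcon
    push Not at hcon
    exact h1 z hcon ((mem_roots hP).mp hz)
  · right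
    have hzC : (toC (pol U L e)).eval (z : ℂ) = 0 := by
      rw [toC_eq, eval_map, ← Complex.ofRealHom_eq_coe z, eval₂_at_apply, hz0, map_zero]
    have hmem : (z : ℂ) ∈ (toC (pol U L e)).roots := (mem_roots hP).mpr hzC
    obtain ⟨R, hR⟩ := Multiset.exists_cons_of_mem hmem
    refine ⟨z, hz, R, hR, fun w hw => ?_⟩
    by_contra hcon
    push Not at hcon
    have h1 := h.card e he hd
    rw [← toC_eq, hR, Multiset.filter_cons_of_pos _ (by
      rwa [Complex.norm_real, Real.norm_eq_abs]), Multiset.card_cons] at h1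
    have h2 : 0 < (R.filter fun z : ℂ => 1 < ‖z‖).card :=
      Multiset.card_pos_iff_exists_mem.mpr ⟨w, Multiset.mem_filter.mpr ⟨hw, hcon⟩⟩
    omega

theorem pol_single_c (U L : Matrix (Fin (n + 1)) (Fin (n + 1)) ℤ) (i : Fin (n + 1)) (c : ℤ) :
    pol U L (Pi.single i c) =
      alex U L + C c * ((X - 1) * alex (SP.del U i) (SP.del L i)) := by
  have h1 : ((X : ℤ[X]) • (U + diagonal (Pi.single i c)).map C +
      (L - diagonal (Pi.single i c)).map C) = ((X : ℤ[X]) • U.map C +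
      L.map C) + diagonal (Pi.single i (C c * (X - 1))) := by
    ext1 a b
    by_cases hab : a = b
    · subst hab
      by_cases ha : a = i
      · subst ha
        simp
        ring
      · simp [Pi.single_eq_of_ne ha]
    · simp [Matrix.diagonal_apply_ne _ hab]
  rw [alex_eq, alex_eq]
  unfold pol pnc
  rw [h1, det_add_single, mul_assoc]
  congr 3

theorem det_single_c (U : Matrix (Fin (n + 1)) (Fin (n + 1)) ℤ) (i : Fin (n + 1)) (c : ℤ) :
    (U + diagonal (Pi.single i c)).det = U.det + c * (SP.del U i).det := by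
  rw [det_add_single]
  rfl

theorem single_nonneg_c (i : Fin (n + 1)) (c : ℤ) (hc : 0 ≤ c) (a : Fin (n + 1)) :
    0 ≤ (Pi.single i c : Fin (n + 1) → ℤ) a := by
  by_cases ha : a = i
  · subst ha; simpa using hc
  · simp [Pi.single_eq_of_ne ha]

theorem circle_c {U L : Matrix (Fin (n + 1)) (Fin (n + 1)) ℤ} {d : Fin (n + 1) → ℝ}
    (hp : ∀ i, 0 < d i) (hs : ∀ i j, d i * U i j = d j * L j i) (i : Fin (n + 1)) (c : ℤ) (z : ℂ)
    (hz : ‖z‖ = 1) :
    ‖(toC (alex U L + C c * ((X - 1) * alex (SP.del U i) (SP.del L i)))).eval z‖ ^ 2 =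
      ‖(toC (alex U L)).eval z‖ ^ 2 +
        (c : ℝ) ^ 2 * ‖(toC ((X - 1) * alex (SP.del U i) (SP.del L i))).eval z‖ ^ 2 := by
  have h1 := circle hp hs i z hz
  rw [eval_add'] at h1 ⊢
  have h2 : (toC (C c * ((X - 1) * alex (SP.del U i) (SP.del L i)))).eval z =
      (c : ℝ) • (toC ((X - 1) * alex (SP.del U i) (SP.del L i))).eval z := by
    rw [Pool.Agent.Y820.LB.toC_mul, eval_mul]
    unfold toC
    simp
  rw [h2]
  rw [norm_add_sq_real] at h1 ⊢
  rw [inner_smul_right, norm_smul, mul_pow, Real.norm_eq_abs, sq_abs]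
  have h3 : inner ℝ ((toC (alex U L)).eval z)
      ((toC ((X - 1) * alex (SP.del U i) (SP.del L i))).eval z) = 0 := by linarith
  rw [h3]
  ring

theorem natDegree_alex_le (U L : Matrix (Fin n) (Fin n) ℤ) : (toC (alex U L)).natDegree ≤ n := by
  refine (natDegree_map_le).trans ?_
  rw [alex_eq]
  have h1 := Polynomial.natDegree_det_X_add_C_le U L
  rw [Fintype.card_fin] at h1
  exact h1

theorem m1_X1 : m1 (X - 1 : ℤ[X]) = 1 := by
  have h0 : (X - 1 : ℤ[X]) ≠ 0 := X_sub_C_ne_zero (1 : ℤ)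
  rw [m1_no_root _ h0 fun z hz h1 => by
    unfold toC at h1
    simp only [Polynomial.map_sub, Polynomial.map_X, Polynomial.map_one, eval_sub, eval_X,
      eval_one] at h1
    rw [sub_eq_zero.mp h1, norm_one] at hz
    exact lt_irrefl _ hz]
  have h1 : (X - 1 : ℤ[X]).leadingCoeff = 1 := leadingCoeff_X_sub_C (1 : ℤ)
  rw [h1]
  simp

/-- **The measure of the auxiliary polynomial without a condition on the signs.** -/
theorem Sei.aux_gen (hJ : S_J) (hHar : S_har) {U L : Matrix (Fin (n + 1)) (Fin (n + 1)) ℤ}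
    {d : Fin (n + 1) → ℝ} (h : Sei U L d) (i : Fin (n + 1)) (c : ℤ) (hc : 1 ≤ c)
    (hF : alex U L ≠ 0) (hG : alex (SP.del U i) (SP.del L i) ≠ 0)
    (hab : U.det + c * (SP.del U i).det ≠ 0) :
    m1 (alex U L + C c * ((X - 1) * alex (SP.del U i) (SP.del L i))) ≤
      (2 * (1 + (c : ℝ))) ^ 3 *
        max (m1 (alex U L)) (m1 (alex (SP.del U i) (SP.del L i))) := by
  have hc0 : (1 : ℝ) ≤ c := by exact_mod_cast hc
  have hne : (U + diagonal (Pi.single i c)).det ≠ 0 := by rwa [det_single_c]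
  have hX : (X - 1 : ℤ[X]) ≠ 0 := X_sub_C_ne_zero (1 : ℤ)
  have hH : (X - 1) * alex (SP.del U i) (SP.del L i) ≠ 0 := mul_ne_zero hX hG
  have hmH : m1 (alex (SP.del U i) (SP.del L i)) =
      m1 ((X - 1) * alex (SP.del U i) (SP.del L i)) := by
    rw [Pool.Agent.Y820.LB.m1_mul, m1_X1, one_mul]
  have hout := h.oneOut (Pi.single i c) (single_nonneg_c i c (by omega)) hne
  have hdeg := pol_natDegree U L _ hne
  have hPne := pol_ne U L _ hne
  rw [pol_single_c] at hout hdeg hPne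
  have hdegP : (toC (alex U L + C c * ((X - 1) * alex (SP.del U i) (SP.del L i)))).natDegree =
      n + 1 := by
    unfold toC
    rw [natDegree_map_eq_of_injective (RingHom.injective_int _), hdeg]
  have hcirc := fun z hz => circle_c h.pos h.symm i c z hz
  rw [hmH]
  refine cmp hJ hHar _ (toC (alex U L)) (toC ((X - 1) * alex (SP.del U i) (SP.del L i))) c
    (by linarith) (Pool.Agent.H261R2.CM.D_toC_ne _ hPne) (Pool.Agent.H261R2.CM.D_toC_ne _ hF)
    (Pool.Agent.H261R2.CM.D_toC_ne _ hH) ?_ ?_ ?_ ?_ ?_ hout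
  · unfold toC
    simp
  · rw [hdegP]
    exact natDegree_alex_le U L
  · rw [hdegP, Pool.Agent.Y820.LB.toC_mul]
    refine natDegree_mul_le.trans ?_
    have h1 := natDegree_alex_le (SP.del U i) (SP.del L i)
    have h2 : (toC (X - 1 : ℤ[X])).natDegree ≤ 1 := by
      unfold toC
      refine natDegree_map_le.trans ?_
      exact (natDegree_X_sub_C (1 : ℤ)).le
    omega
  · intro z hz
    refine abs_le_of_sq_le_sq' ?_ (norm_nonneg _) |>.2
    rw [hcirc z hz]
    nlinarith [sq_nonneg ((c : ℝ) *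
      ‖(toC ((X - 1) * alex (SP.del U i) (SP.del L i))).eval z‖)]
  · intro z hz
    refine abs_le_of_sq_le_sq' ?_ (norm_nonneg _) |>.2
    rw [hcirc z hz]
    have h1 : 1 ≤ (c : ℝ) ^ 2 := by nlinarith
    nlinarith [sq_nonneg ‖(toC (alex U L)).eval z‖, mul_le_mul_of_nonneg_right h1
      (sq_nonneg ‖(toC ((X - 1) * alex (SP.del U i) (SP.del L i))).eval z‖)]

/-- the inequality for the pair -/
theorem Sei.pair_gen (hJ : S_J) (hHar : S_har) {U L : Matrix (Fin (n + 1)) (Fin (n + 1)) ℤ}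
    {d : Fin (n + 1) → ℝ} (h : Sei U L d) (i : Fin (n + 1)) (hF : alex U L ≠ 0)
    (hG : alex (SP.del U i) (SP.del L i) ≠ 0) (hab : U.det ≠ 0 ∨ (SP.del U i).det ≠ 0) :
    mx1 (alex U L) ((X - 1) * alex (SP.del U i) (SP.del L i)) ≤
      Real.log (216 * max (m1 (alex U L)) (m1 (alex (SP.del U i) (SP.del L i)))) := by
  obtain ⟨c, hc, hc2, hne⟩ : ∃ c : ℤ, 1 ≤ c ∧ c ≤ 2 ∧ U.det + c * (SP.del U i).det ≠ 0 := by
    by_cases h1 : U.det + 1 * (SP.del U i).det = 0
    · refine ⟨2, by norm_num, by norm_num, fun h2 => ?_⟩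
      rcases hab with h3 | h3
      · exact h3 (by linarith)
      · exact h3 (by linarith)
    · exact ⟨1, le_rfl, by norm_num, h1⟩
  set P := alex U L + C c * ((X - 1) * alex (SP.del U i) (SP.del L i)) with hP
  have hc0 : (1 : ℝ) ≤ c := by exact_mod_cast hc
  have hc20 : (c : ℝ) ≤ 2 := by exact_mod_cast hc2
  have hP0 : P ≠ 0 := by
    rw [hP, ← pol_single_c]
    refine pol_ne _ _ _ ?_
    rwa [det_single_c]
  have h2 : 0 < m1 P := lt_of_lt_of_le one_pos (Pool.Agent.Y820.LB.one_le_m1 hP0)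
  have h3 : m1 P ≤ 216 * max (m1 (alex U L)) (m1 (alex (SP.del U i) (SP.del L i))) := by
    refine (h.aux_gen hJ hHar i c hc hF hG hne).trans (mul_le_mul_of_nonneg_right ?_ ?_)
    · have h4 : (2 * (1 + (c : ℝ))) ≤ 6 := by linarith
      calc (2 * (1 + (c : ℝ))) ^ 3 ≤ 6 ^ 3 := pow_le_pow_left₀ (by linarith) h4 3
        _ = 216 := by norm_num
    · exact le_max_of_le_left (by linarith [Pool.Agent.Y820.LB.one_le_m1 hF])
  refine le_trans ?_ (Real.log_le_log h2 h3)
  rw [D_log_m1]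
  refine intervalIntegral.integral_mono_ae zero_le_one
    (Pool.Agent.H261R2.CM.mx1_intervalIntegrable _ _ hF)
    (D_intervalIntegrable_log P) ?_
  filter_upwards [D_ae_ne (alex U L) hF] with t h1
  have h3 := circle_c h.pos h.symm i c (ez t) (Pool.Agent.H261R2.CM.D_norm_ez t)
  change ‖ev1 P t‖ ^ 2 = ‖ev1 (alex U L) t‖ ^ 2 + (c : ℝ) ^ 2 *
    ‖ev1 ((X - 1) * alex (SP.del U i) (SP.del L i)) t‖ ^ 2 at h3
  have h4 : 0 < ‖ev1 (alex U L) t‖ := norm_pos_iff.mpr h1
  have h5 : 1 ≤ (c : ℝ) ^ 2 := by nlinarith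
  have h6 : 0 ≤ ‖ev1 (alex U L) t‖ ^ 2 := sq_nonneg _
  have h7 : 0 ≤ ‖ev1 ((X - 1) * alex (SP.del U i) (SP.del L i)) t‖ ^ 2 := sq_nonneg _
  refine Real.log_le_log (lt_max_of_lt_left h4) (max_le ?_ ?_)
  · exact abs_le_of_sq_le_sq' (by nlinarith) (norm_nonneg _) |>.2
  · exact abs_le_of_sq_le_sq' (by nlinarith) (norm_nonneg _) |>.2

/-- **The bounded companion.** -/
theorem Sei.mem_gen (hJ : S_J) (hHar : S_har) {U L : Matrix (Fin (n + 1)) (Fin (n + 1)) ℤ}
    {d : Fin (n + 1) → ℝ} (h : Sei U L d) (i : Fin (n + 1)) (hF : alex U L ≠ 0)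
    (hG : alex (SP.del U i) (SP.del L i) ≠ 0) (hab : U.det ≠ 0 ∨ (SP.del U i).det ≠ 0)
    (hcop : ∀ z : ℂ, 1 < ‖z‖ → (toC (alex U L)).eval z = 0 →
      (toC (alex (SP.del U i) (SP.del L i))).eval z ≠ 0) :
    m1 (alex U L) ∈
      LL (Real.log (216 * max (m1 (alex U L)) (m1 (alex (SP.del U i) (SP.del L i))))) := by
  refine LL_mono (h.pair_gen hJ hHar i hF hG hab) (pair_mem _ _ hF ?_ fun z hz h0 => ?_)
  · refine mul_ne_zero ?_ hG
    exact X_sub_C_ne_zero (1 : ℤ)
  · rw [eval_X1]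
    refine mul_ne_zero ?_ (hcop z hz h0)
    intro h1
    rw [sub_eq_zero.mp h1, norm_one] at hz
    exact lt_irrefl _ hz

end

end Pool.Agent.H270.SP
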