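import Pool.Agent.H270.SP.HarDefs

/-!
# Harnack inequality for two polynomials
-/

set_option autoImplicit false

namespace Pool.Agent.H270.SP

open Polynomial Filter Topology MeasureTheory Real

theorem har_kern {r : ℝ} (hr : |r| = 1 / 2) {z : ℂ} (hz : ‖z‖ = 1) : 1 / 3 ≤ kern r z := by
  have h1 : z ∈ Metric.sphere (0 : ℂ) 1 := mem_sphere_zero_iff_norm.2 hz
  have hnorm : ‖(r : ℂ)‖ = 1 / 2 := by rw [Complex.norm_real, Real.norm_eq_abs, hr]
  have h2 : (r : ℂ) ∈ Metric.ball (0 : ℂ) 1 := by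
    rw [mem_ball_zero_iff, hnorm]
    norm_num
  have h3 := le_re_herglotzRieszKernel h1 h2
  rw [sub_zero, hnorm] at h3
  have h4 : ((1 : ℝ) - 1 / 2) / (1 + 1 / 2) = 1 / 3 := by norm_num
  rw [h4] at h3
  refine h3.trans (le_of_eq ?_)
  unfold kern
  rw [herglotzRieszKernel_def, sub_zero, sub_zero]

theorem har_int (Q : ℂ[X]) : CircleIntegrable (fun z => Real.log ‖Q.eval z‖) 0 1 :=
  (analyticOnNhd_id.aeval_polynomial Q).meromorphicOn.circleIntegrable_log_norm

theorem har_avg (f g : ℂ → ℝ) (hf : CircleIntegrable f 0 1) (hg : CircleIntegrable g 0 1) :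
    circleAverage f 0 1 - circleAverage g 0 1 =
      (2 * π)⁻¹ * ∫ θ in (0 : ℝ)..2 * π, (f (circleMap 0 1 θ) - g (circleMap 0 1 θ)) := by
  rw [circleAverage_def, circleAverage_def, intervalIntegral.integral_sub hf hg, smul_eq_mul,
    smul_eq_mul, mul_sub]

theorem t_har (h1 : S_int) : S_har := by
  intro r P F hr hP hF hle
  have hr1 : |r| < 1 := by rw [hr]; norm_num
  have iP := har_int P
  have iF := har_int F
  have kP := h1 r P hr1
  have kF := h1 r F hr1
  rw [logMahlerMeasure_def, logMahlerMeasure_def]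
  unfold J
  rw [har_avg _ _ iP iF, har_avg _ _ kP kF]
  have hmono : ∫ θ in (0 : ℝ)..2 * π, (Real.log ‖P.eval (circleMap 0 1 θ)‖ -
        Real.log ‖F.eval (circleMap 0 1 θ)‖) ≤
      ∫ θ in (0 : ℝ)..2 * π, 3 * (kern r (circleMap 0 1 θ) * Real.log ‖P.eval (circleMap 0 1 θ)‖ -
        kern r (circleMap 0 1 θ) * Real.log ‖F.eval (circleMap 0 1 θ)‖) := by
    refine intervalIntegral.integral_mono_ae (by positivity) (IntervalIntegrable.sub iP iF)
      ((IntervalIntegrable.sub kP kF).const_mul 3) ?_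
    have hc : ((circleMap 0 1) ⁻¹' {z : ℂ | F.IsRoot z}).Countable :=
      (Polynomial.finite_setOfPred_isRoot hF).countable.preimage_circleMap 0 one_ne_zero
    filter_upwards [hc.ae_notMem volume] with θ hθ
    have hF0 : F.eval (circleMap 0 1 θ) ≠ 0 := fun h => hθ h
    have hz : ‖circleMap 0 1 θ‖ = 1 := by
      rw [norm_circleMap_zero, abs_one]
    have h2 : 0 < ‖F.eval (circleMap 0 1 θ)‖ := norm_pos_iff.2 hF0
    have h3 := Real.log_le_log h2 (hle _ hz)
    have h4 := har_kern hr hz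
    nlinarith
  rw [intervalIntegral.integral_const_mul] at hmono
  have hpi : 0 ≤ (2 * π)⁻¹ := by positivity
  have h5 := mul_le_mul_of_nonneg_left hmono hpi
  calc _ ≤ _ := h5
    _ = _ := by ring

end Pool.Agent.H270.SP
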