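import Pool.Agent.H270.SP.HarDefs

/-!
# Circle integrability of the kernel times the logarithm of a polynomial
-/

set_option autoImplicit false

namespace Pool.Agent.H270.SP

open Polynomial Filter Topology MeasureTheory Real

theorem int_kern_cont (r : ℝ) (hr : |r| < 1) : ContinuousOn (kern r) (Metric.sphere (0 : ℂ) |1|) := by
  unfold kern
  refine Complex.continuous_re.comp_continuousOn ?_
  rw [herglotzRieszKernel_fun_def]
  refine ContinuousOn.div (by fun_prop) (by fun_prop) ?_
  intro z hz h
  rw [mem_sphere_zero_iff_norm, abs_one] at hz
  have h1 : z = (r : ℂ) := by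
    have := sub_eq_zero.1 h
    simpa using this
  rw [h1, Complex.norm_real, Real.norm_eq_abs] at hz
  linarith

theorem t_int : S_int := by
  intro r Q hr
  have h1 : CircleIntegrable (fun z => Real.log ‖Q.eval z‖) 0 1 := by
    refine MeromorphicOn.circleIntegrable_log_norm (f := fun z : ℂ => Q.eval z) ?_
    intro z _
    exact (AnalyticAt.aeval_polynomial analyticAt_id Q).meromorphicAt
  exact h1.continuousOn_mul (int_kern_cont r hr)

end Pool.Agent.H270.SP
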