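import Pool.Agent.H270.SP.HarDefs

/-!
# Poisson-Jensen formula for a polynomial
-/

set_option autoImplicit false

namespace Pool.Agent.H270.SP

open Polynomial Filter Topology MeasureTheory Real

/-- the constant polynomial -/
theorem jay_const (r : ℝ) (hr : |r| < 1) (c : ℝ) :
    circleAverage (fun z => kern r z * c) 0 1 = c := by
  have hw : (r : ℂ) ∈ Metric.ball (0 : ℂ) 1 := by
    rw [mem_ball_zero_iff, Complex.norm_real, Real.norm_eq_abs]
    exact hr
  have h := InnerProductSpace.HarmonicOnNhd.circleAverage_re_herglotzRieszKernel_smul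
    (f := fun _ : ℂ => c) (c := (0 : ℂ)) (R := 1) (w := (r : ℂ))
    (InnerProductSpace.harmonicOnNhd_const c) hw
  exact h

/-- multiplication by a linear factor -/
theorem jay_mul (h1 : S_int) (h2 : S_lin) (r : ℝ) (hr : |r| < 1) (w : ℂ) (P : ℂ[X]) (hP : P ≠ 0) :
    J r ((X - C w) * P) = ell r w + J r P := by
  have hfin : ({z : ℂ | z = w} ∪ {z : ℂ | P.eval z = 0}).Finite := by
    refine Set.Finite.union (Set.finite_singleton w) ?_
    have : {z : ℂ | P.eval z = 0} = {z : ℂ | P.IsRoot z} := rfl
    rw [this]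
    exact Polynomial.finite_setOfPred_isRoot hP
  have hcong : (fun z => kern r z * Real.log ‖((X - C w) * P).eval z‖)
      =ᶠ[codiscreteWithin (Metric.sphere (0 : ℂ) |1|)]
      (fun z => kern r z * Real.log ‖z - w‖ + kern r z * Real.log ‖P.eval z‖) := by
    filter_upwards [compl_finite_mem_codiscreteWithin hfin] with z hz
    have hz1 : z - w ≠ 0 := fun h => hz (Or.inl (sub_eq_zero.mp h))
    have hz2 : P.eval z ≠ 0 := fun h => hz (Or.inr h)
    rw [eval_mul, norm_mul, eval_sub, eval_X, eval_C,
      Real.log_mul (norm_ne_zero_iff.mpr hz1) (norm_ne_zero_iff.mpr hz2), mul_add]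
  have hi1 : CircleIntegrable (fun z => kern r z * Real.log ‖z - w‖) 0 1 := by
    have := h1 r (X - C w) hr
    simpa using this
  unfold J
  rw [circleAverage_congr_codiscreteWithin hcong one_ne_zero,
    circleAverage_fun_add hi1 (h1 r P hr), h2 r w hr]

theorem jay_prod (h1 : S_int) (h2 : S_lin) (r : ℝ) (hr : |r| < 1) (a : ℂ) (ha : a ≠ 0)
    (s : Multiset ℂ) :
    J r (C a * (s.map (fun w => X - C w)).prod) = Real.log ‖a‖ + (s.map (ell r)).sum := by
  induction s using Multiset.induction_on with
  | empty =>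
    simp only [Multiset.map_zero, Multiset.prod_zero, mul_one, Multiset.sum_zero, add_zero]
    unfold J
    simp only [eval_C]
    exact jay_const r hr _
  | cons w s ih =>
    rw [Multiset.map_cons, Multiset.prod_cons, Multiset.map_cons, Multiset.sum_cons]
    have hne : C a * (s.map (fun w => X - C w)).prod ≠ 0 := by
      refine mul_ne_zero (C_ne_zero.mpr ha) ?_
      refine Multiset.prod_ne_zero ?_
      intro h
      obtain ⟨b, _, hb⟩ := Multiset.mem_map.mp h
      exact X_sub_C_ne_zero b hb
    have heq : C a * ((X - C w) * (s.map (fun w => X - C w)).prod)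
        = (X - C w) * (C a * (s.map (fun w => X - C w)).prod) := by ring
    rw [heq, jay_mul h1 h2 r hr w _ hne, ih]
    ring

/-- **S_J** -/
theorem t_jay (h1 : S_int) (h2 : S_lin) : S_J := by
  intro r Q hr hQ
  have hs : Q = C Q.leadingCoeff * (Q.roots.map (fun w => X - C w)).prod :=
    (IsAlgClosed.splits Q).eq_prod_roots
  have h := jay_prod h1 h2 r hr Q.leadingCoeff (leadingCoeff_ne_zero.mpr hQ) Q.roots
  rw [← hs] at h
  exact h

end Pool.Agent.H270.SP
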