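import Pool.Agent.H270.SP.HarDefs

/-!
# The Poisson weighted mean of `log ‖z - w‖` over the unit circle
-/

set_option autoImplicit false

namespace Pool.Agent.H270.SP

open Polynomial Filter Topology MeasureTheory Real

/-- on the unit circle `‖z - w‖ = ‖1 - conj w * z‖` -/
theorem lin_norm (z w : ℂ) (hz : ‖z‖ = 1) :
    ‖z - w‖ = ‖1 - (starRingEnd ℂ) w * z‖ := by
  have h1 : z * (starRingEnd ℂ) z = 1 := by
    rw [Complex.mul_conj, Complex.normSq_eq_norm_sq, hz]; simp
  have h2 : z - w = z * (1 - (starRingEnd ℂ) z * w) := by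
    linear_combination (-w) * (-h1)
  rw [h2, norm_mul, hz, one_mul, ← Complex.norm_conj]
  simp [mul_comm]

/-- the mean for a function without zeros on the closed disc -/
theorem lin_harm (r : ℝ) (f : ℂ → ℂ) (hr : |r| < 1)
    (hf : ∀ z ∈ Metric.closedBall (0 : ℂ) 1, AnalyticAt ℂ f z)
    (h0 : ∀ z ∈ Metric.closedBall (0 : ℂ) 1, f z ≠ 0) :
    circleAverage (fun z => kern r z * Real.log ‖f z‖) 0 1 = Real.log ‖f (r : ℂ)‖ := by
  have hH : InnerProductSpace.HarmonicOnNhd (fun z => Real.log ‖f z‖)
      (Metric.closedBall (0 : ℂ) 1) :=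
    fun z hz => (hf z hz).harmonicAt_log_norm (h0 z hz)
  have hw : (r : ℂ) ∈ Metric.ball (0 : ℂ) 1 := by
    rw [mem_ball_zero_iff, Complex.norm_real]; exact hr
  exact InnerProductSpace.HarmonicOnNhd.circleAverage_re_herglotzRieszKernel_smul hH hw

theorem t_lin : S_lin := by
  intro r w hr
  rcases lt_trichotomy ‖w‖ 1 with h | h | h
  · -- inside
    have e : ell r w = Real.log ‖1 - (starRingEnd ℂ) w * (r : ℂ)‖ := by
      unfold ell
      rw [if_pos h.le, ← Complex.norm_conj]
      simp [mul_comm]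
    rw [e, ← lin_harm r (fun z => 1 - (starRingEnd ℂ) w * z) hr (fun z _ => by fun_prop)]
    · refine circleAverage_congr_sphere fun z hz => ?_
      have hz' : ‖z‖ = 1 := by simpa using hz
      simp only [lin_norm z w hz']
    · intro z hz h0
      have hz' : ‖z‖ ≤ 1 := by simpa using hz
      have h1 : (starRingEnd ℂ) w * z = 1 := (sub_eq_zero.1 h0).symm
      have h2 : ‖(starRingEnd ℂ) w * z‖ = 1 := by rw [h1, norm_one]
      rw [norm_mul, Complex.norm_conj] at h2
      nlinarith [norm_nonneg w, norm_nonneg z]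
  · -- on the circle
    have e : ell r w = Real.log ‖(r : ℂ) - w‖ := by
      unfold ell
      rw [if_pos h.le, norm_sub_rev (r : ℂ) w, lin_norm w (r : ℂ) h, Complex.conj_ofReal]
    rw [e]
    exact circleAverage_re_herglotzRieszKernel_mul_log₀ (by simpa using h)
      (by rw [mem_ball_zero_iff, Complex.norm_real]; exact hr)
  · -- outside
    have e : ell r w = Real.log ‖(r : ℂ) - w‖ := by
      unfold ell
      rw [if_neg (not_le.2 h)]
    rw [e]
    refine lin_harm r (fun z => z - w) hr (fun z _ => by fun_prop) fun z hz h0 => ?_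
    have hz' : ‖z‖ ≤ 1 := by simpa using hz
    rw [sub_eq_zero.1 h0] at hz'
    linarith

end Pool.Agent.H270.SP
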