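import Mathlib

/-!
# Statements for the Harnack argument
-/

set_option autoImplicit false

namespace Pool.Agent.H270.SP

open Polynomial Filter Topology MeasureTheory Real

noncomputable section

/-- the Poisson weight at the real point `r` -/
def kern (r : ℝ) (z : ℂ) : ℝ := (herglotzRieszKernel 0 (r : ℂ) z).re

/-- the Poisson weighted mean of `log ‖Q‖` over the unit circle -/
def J (r : ℝ) (Q : ℂ[X]) : ℝ :=
  circleAverage (fun z => kern r z * Real.log ‖Q.eval z‖) 0 1

/-- the contribution of a root -/
def ell (r : ℝ) (w : ℂ) : ℝ :=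
  if ‖w‖ ≤ 1 then Real.log ‖1 - (r : ℂ) * w‖ else Real.log ‖(r : ℂ) - w‖

/-- Integrability. The kernel is continuous on the circle (`|r| < 1`), and
`log ‖z - w‖` is circle integrable (Mathlib: `circleIntegrable_log_norm_sub_const` or
`circleIntegrable_log_norm_meromorphicOn`). -/
def S_int : Prop := ∀ (r : ℝ) (Q : ℂ[X]), |r| < 1 →
  CircleIntegrable (fun z => kern r z * Real.log ‖Q.eval z‖) 0 1

/-- The mean for a linear factor. `‖w‖ = 1`: Mathlib
`circleAverage_re_herglotzRieszKernel_mul_log₀` (note `‖1 - r w‖ = ‖r - w‖` for `‖w‖ = 1`, `r`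
real). `‖w‖ > 1`: `log ‖z - w‖` is harmonic near the closed disc, Mathlib
`HarmonicOnNhd.circleAverage_re_herglotzRieszKernel_smul`. `‖w‖ < 1`: on the circle
`‖z - w‖ = ‖1 - conj w * z‖`, and `log ‖1 - conj w * z‖` is harmonic near the closed disc; the value
at `r` is `log ‖1 - conj w * r‖ = log ‖1 - r w‖`. -/
def S_lin : Prop := ∀ (r : ℝ) (w : ℂ), |r| < 1 →
  circleAverage (fun z => kern r z * Real.log ‖z - w‖) 0 1 = ell r w

/-- The formula for a polynomial: sum over the roots (`ℂ` is algebraically closed: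
`Q = C a * ∏ (X - C w)`, induction over the roots; at finitely many points of the circle the logarithm
of a product is not the sum of the logarithms (`log 0 = 0`), so an almost everywhere argument is
needed there; or work with the integral over `0..2π` and a countable exceptional set). The mean of
`kern r` itself is `1` (harmonic function `1`). -/
def S_J : Prop := ∀ (r : ℝ) (Q : ℂ[X]), |r| < 1 → Q ≠ 0 →
  J r Q = Real.log ‖Q.leadingCoeff‖ + (Q.roots.map (ell r)).sum

/-- Harnack: for `|r| = 1/2` the weight is at least `1/3` on the circle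
(Mathlib `le_re_herglotzRieszKernel`), and `log ‖F‖ ≤ log ‖P‖` at all points of the circle where
`F ≠ 0`. -/
def S_har : Prop := ∀ (r : ℝ) (P F : ℂ[X]), |r| = 1 / 2 → P ≠ 0 → F ≠ 0 →
  (∀ z : ℂ, ‖z‖ = 1 → ‖F.eval z‖ ≤ ‖P.eval z‖) →
  P.logMahlerMeasure - F.logMahlerMeasure ≤ 3 * (J r P - J r F)

end

end Pool.Agent.H270.SP
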