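import Pool.Graph.R_pool_sql_team_seeded_9f66d723.W5h66.CX.B
import Pool.Agent.H270.SP.CntDefs

/-!
# At most `k` roots outside of the unit circle
-/

set_option autoImplicit false

namespace Pool.Agent.H270.SP

open Matrix Polynomial Filter Topology
open Pool.Agent.W5h66.CX (pnc pnc_eval pnc_map cm re_form norm_dot star_form)

noncomputable section

theorem card_pncK (hC : S_cnt) {n k : ℕ} (W : Matrix (Fin n) (Fin n) ℝ) (v : Fin k → Fin n → ℝ)
    (hv : ∀ x : Fin n → ℝ, 0 ≤ x ⬝ᵥ W *ᵥ x + ∑ j, (v j ⬝ᵥ x) ^ 2) (e : Fin n → ℝ)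
    (he : ∀ i, 0 ≤ e i) (hdet : (W + diagonal e).det ≠ 0) :
    (((pnc (W + diagonal e) (Wᵀ - diagonal e)).map Complex.ofRealHom).roots.filter
      fun z => 1 < ‖z‖).card ≤ k := by
  set X := cm (W + diagonal e) with hX
  set Y := cm (Wᵀ - diagonal e) with hY
  have hXd : X.det ≠ 0 := by
    rw [hX, cm, ← RingHom.mapMatrix_apply, ← RingHom.map_det]
    simpa using hdet
  have hXu : IsUnit X.det := isUnit_iff_ne_zero.mpr hXd
  set T : Matrix (Fin n) (Fin n) ℂ := -(X⁻¹ * Y) with hT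
  have hXT : X * T = -Y := by
    rw [hT, Matrix.mul_neg, ← Matrix.mul_assoc, Matrix.mul_nonsing_inv _ hXu, Matrix.one_mul]
  have hpoly : (pnc (W + diagonal e) (Wᵀ - diagonal e)).map Complex.ofRealHom =
      C X.det * T.charpoly := by
    rw [pnc_map]
    change pnc X Y = _
    refine Polynomial.funext fun z => ?_
    rw [pnc_eval, eval_mul, eval_C, Matrix.eval_charpoly, ← Matrix.det_mul, Matrix.mul_sub, hXT,
      sub_neg_eq_add]
    congr 2
    rw [Matrix.scalar_apply, ← Matrix.smul_one_eq_diagonal, Matrix.mul_smul, Matrix.mul_one]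
  rw [hpoly, roots_C_mul _ hXd]
  set B : Matrix (Fin n) (Fin n) ℂ := X + Y with hB
  have hBr : B = cm (W + Wᵀ) := by
    rw [hB, hX, hY]
    ext i j
    simp [cm]
  have hBh : B.IsHermitian := by
    rw [hBr]
    ext i j
    simp [cm, add_comm]
  have hY2 : Y = Xᴴ - cm (diagonal fun i => 2 * e i) := by
    rw [hX, hY]
    ext i j
    by_cases hij : i = j
    · subst hij
      simp [cm]
      ring
    · simp [cm, Matrix.diagonal_apply_ne _ hij, Matrix.diagonal_apply_ne _ (Ne.symm hij)]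
  refine hC n k T B (fun j i => ((Real.sqrt 2 * v j i : ℝ) : ℂ)) hBh ?_ ?_ ?_
  · intro x
    set u := x - T *ᵥ x with hu
    have hXux : X *ᵥ u = B *ᵥ x := by
      rw [hu, mulVec_sub, mulVec_mulVec, hXT, hB, neg_mulVec, add_mulVec, sub_neg_eq_add]
    have hTx : T *ᵥ x = x - u := by rw [hu]; abel
    rw [hTx]
    have e1 : star (x - u) ⬝ᵥ B *ᵥ (x - u) = star x ⬝ᵥ B *ᵥ x - star u ⬝ᵥ B *ᵥ x -
        star x ⬝ᵥ B *ᵥ u + star u ⬝ᵥ B *ᵥ u := by
      rw [star_sub, mulVec_sub, sub_dotProduct, dotProduct_sub, dotProduct_sub]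
      ring
    have e2 : star x ⬝ᵥ B *ᵥ u = star (star u ⬝ᵥ B *ᵥ x) := by
      nth_rewrite 1 [← hBh.eq]
      rw [dotProduct_mulVec, ← star_mulVec, ← star_dotProduct_star, star_star, dotProduct_comm]
    have e3 : star u ⬝ᵥ B *ᵥ u = star u ⬝ᵥ X *ᵥ u + star (star u ⬝ᵥ X *ᵥ u) -
        star u ⬝ᵥ cm (diagonal fun i => 2 * e i) *ᵥ u := by
      rw [hB, hY2, add_mulVec, sub_mulVec, dotProduct_add, dotProduct_sub, star_form]
      ring
    have e4 : 0 ≤ (star u ⬝ᵥ cm (diagonal fun i => 2 * e i) *ᵥ u).re := by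
      rw [re_form]
      have h0 : ∀ y : Fin n → ℝ, 0 ≤ y ⬝ᵥ (diagonal fun i => 2 * e i) *ᵥ y := by
        intro y
        unfold dotProduct
        refine Finset.sum_nonneg fun i _ => ?_
        rw [mulVec_diagonal]
        nlinarith [he i, mul_self_nonneg (y i), mul_nonneg (he i) (mul_self_nonneg (y i))]
      exact add_nonneg (h0 _) (h0 _)
    rw [e1, e2, e3, ← hXux]
    simp only [Complex.add_re, Complex.sub_re, Complex.star_def, Complex.conj_re]
    linarith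
  · intro x
    rw [hBr, re_form]
    have hn : ∀ j, ‖(fun i => ((Real.sqrt 2 * v j i : ℝ) : ℂ)) ⬝ᵥ x‖ ^ 2 =
        ((fun i => Real.sqrt 2 * v j i) ⬝ᵥ fun i => (x i).re) ^ 2 +
        ((fun i => Real.sqrt 2 * v j i) ⬝ᵥ fun i => (x i).im) ^ 2 := fun j => norm_dot _ x
    rw [Finset.sum_congr rfl fun j _ => hn j, Finset.sum_add_distrib]
    have h0 : ∀ y : Fin n → ℝ, 0 ≤ y ⬝ᵥ (W + Wᵀ) *ᵥ y +
        ∑ j, ((fun i => Real.sqrt 2 * v j i) ⬝ᵥ y) ^ 2 := by
      intro y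
      have h1 : y ⬝ᵥ (W + Wᵀ) *ᵥ y = 2 * (y ⬝ᵥ W *ᵥ y) := by
        rw [add_mulVec, dotProduct_add, mulVec_transpose, dotProduct_comm y (y ᵥ* W),
          ← dotProduct_mulVec]
        ring
      have h2 : ∀ j, ((fun i => Real.sqrt 2 * v j i) ⬝ᵥ y) ^ 2 = 2 * (v j ⬝ᵥ y) ^ 2 := by
        intro j
        have h3 : (fun i => Real.sqrt 2 * v j i) ⬝ᵥ y = Real.sqrt 2 * (v j ⬝ᵥ y) := by
          simp only [dotProduct, Finset.mul_sum, mul_assoc]
        rw [h3, mul_pow, Real.sq_sqrt (by norm_num)]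
      rw [h1, Finset.sum_congr rfl fun j _ => h2 j, ← Finset.mul_sum]
      linarith [hv y]
    have h3 := h0 fun i => (x i).re
    have h4 := h0 fun i => (x i).im
    linarith
  · intro x hx
    have hXux : X *ᵥ (x - T *ᵥ x) = 0 := by
      rw [mulVec_sub, mulVec_mulVec, hXT, neg_mulVec, sub_neg_eq_add, ← add_mulVec, ← hB, hx]
    have h0 : x - T *ᵥ x = 0 := by
      have h1 : X⁻¹ *ᵥ (X *ᵥ (x - T *ᵥ x)) = x - T *ᵥ x := by
        rw [mulVec_mulVec, Matrix.nonsing_inv_mul _ hXu, one_mulVec]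
      rw [← h1, hXux, mulVec_zero]
    exact (sub_eq_zero.mp h0).symm


end

end Pool.Agent.H270.SP
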