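import Pool.Agent.H270.SP.HHar

/-!
# Harnack inequality for two polynomials, all real points with `|r| ≤ 1 / 2`
-/

set_option autoImplicit false

namespace Pool.Agent.H270.SP

open Polynomial Filter Topology MeasureTheory Real

theorem harK_kern {r : ℝ} (hr : |r| ≤ 1 / 2) {z : ℂ} (hz : ‖z‖ = 1) : 1 / 3 ≤ kern r z := by
  have h1 : z ∈ Metric.sphere (0 : ℂ) 1 := mem_sphere_zero_iff_norm.2 hz
  have hnorm : ‖(r : ℂ)‖ = |r| := by rw [Complex.norm_real, Real.norm_eq_abs]
  have h2 : (r : ℂ) ∈ Metric.ball (0 : ℂ) 1 := by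
    rw [mem_ball_zero_iff, hnorm]
    linarith
  have h3 := le_re_herglotzRieszKernel h1 h2
  rw [sub_zero, hnorm] at h3
  have h4 : 1 / 3 ≤ ((1 : ℝ) - |r|) / (1 + |r|) := by
    rw [div_le_div_iff₀ (by norm_num) (by positivity)]
    linarith
  refine (h4.trans h3).trans (le_of_eq ?_)
  unfold kern
  rw [herglotzRieszKernel_def, sub_zero, sub_zero]

/-- Harnack for two polynomials at a real point `r` with `|r| ≤ 1 / 2`. -/
theorem harK (h1 : S_int) (r : ℝ) (P F : ℂ[X]) (hr : |r| ≤ 1 / 2) (_hP : P ≠ 0) (hF : F ≠ 0)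
    (hle : ∀ z : ℂ, ‖z‖ = 1 → ‖F.eval z‖ ≤ ‖P.eval z‖) :
    P.logMahlerMeasure - F.logMahlerMeasure ≤ 3 * (J r P - J r F) := by
  have hr1 : |r| < 1 := by linarith
  have iP := har_int P
  have iF := har_int F
  have kP := h1 r P hr1
  have kF := h1 r F hr1
  rw [logMahlerMeasure_def, logMahlerMeasure_def]
  unfold J
  rw [har_avg _ _ iP iF, har_avg _ _ kP kF]
  have hmono : ∫ θ in (0 : ℝ)..2 * π, (Real.log ‖P.eval (circleMap 0 1 θ)‖ -
        Real.log ‖F.eval (circleMap 0 1 θ)‖) ≤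
      ∫ θ in (0 : ℝ)..2 * π, 3 * (kern r (circleMap 0 1 θ) * Real.log ‖P.eval (circleMap 0 1 θ)‖ -
        kern r (circleMap 0 1 θ) * Real.log ‖F.eval (circleMap 0 1 θ)‖) := by
    refine intervalIntegral.integral_mono_ae (by positivity) (IntervalIntegrable.sub iP iF)
      ((IntervalIntegrable.sub kP kF).const_mul 3) ?_
    have hc : ((circleMap 0 1) ⁻¹' {z : ℂ | F.IsRoot z}).Countable :=
      (Polynomial.finite_setOfPred_isRoot hF).countable.preimage_circleMap 0 one_ne_zero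
    filter_upwards [hc.ae_notMem volume] with θ hθ
    have hF0 : F.eval (circleMap 0 1 θ) ≠ 0 := fun h => hθ h
    have hz : ‖circleMap 0 1 θ‖ = 1 := by
      rw [norm_circleMap_zero, abs_one]
    have h2 : 0 < ‖F.eval (circleMap 0 1 θ)‖ := norm_pos_iff.2 hF0
    have h3 := Real.log_le_log h2 (hle _ hz)
    have h4 := harK_kern hr hz
    nlinarith
  rw [intervalIntegral.integral_const_mul] at hmono
  have hpi : 0 ≤ (2 * π)⁻¹ := by positivity
  have h5 := mul_le_mul_of_nonneg_left hmono hpi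
  calc _ ≤ _ := h5
    _ = _ := by ring

end Pool.Agent.H270.SP
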