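import Pool.Agent.H270.SP.Cmp
import Pool.Agent.H270.SP.KHar

/-!
# Comparison of the measures with at most `k` zeros outside of the unit circle
-/

set_option autoImplicit false

namespace Pool.Agent.H270.SP

open Polynomial Filter Topology MeasureTheory

noncomputable section

/-- the constant for one zero outside -/
def bd (k : ℕ) : ℝ := 2 * ((k : ℝ) + 2) * ((k : ℝ) + 3)

theorem bd_pos (k : ℕ) : 1 ≤ bd k := by
  unfold bd
  have : (0 : ℝ) ≤ k := Nat.cast_nonneg k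
  nlinarith

/-- pigeonhole -/
theorem exists_point (k : ℕ) (s : Multiset ℂ) (hs : s.card ≤ k) :
    ∃ m : ℕ, 2 ≤ m ∧ m ≤ k + 2 ∧ ∀ w ∈ s, 1 / 2 ≤ ‖((m : ℝ) : ℂ) - w‖ := by
  classical
  by_contra hcon
  push Not at hcon
  have h1 : ∀ m ∈ Finset.Icc 2 (k + 2), ∃ w ∈ s, ‖((m : ℝ) : ℂ) - w‖ < 1 / 2 := by
    intro m hm
    rw [Finset.mem_Icc] at hm
    exact hcon m hm.1 hm.2
  choose! f hf1 hf2 using h1
  have h2 : (Finset.Icc 2 (k + 2)).card ≤ s.toFinset.card := by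
    refine Finset.card_le_card_of_injOn f (fun m hm => ?_) ?_
    · rw [Finset.mem_coe, Multiset.mem_toFinset]
      exact hf1 m hm
    · intro a ha b hb hab
      have h3 := hf2 a ha
      have h4 := hf2 b hb
      rw [hab] at h3
      have h5 : ‖((a : ℝ) : ℂ) - ((b : ℝ) : ℂ)‖ < 1 := by
        have h6 : ((a : ℝ) : ℂ) - ((b : ℝ) : ℂ) =
            (((a : ℝ) : ℂ) - f b) - (((b : ℝ) : ℂ) - f b) := by ring
        rw [h6]
        refine (norm_sub_le _ _).trans_lt ?_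
        linarith
      rw [← Complex.ofReal_sub, Complex.norm_real, Real.norm_eq_abs] at h5
      have h6 : |(a : ℤ) - (b : ℤ)| < 1 := by exact_mod_cast h5
      have h7 := Int.abs_lt_one_iff.mp h6
      omega
  rw [Nat.card_Icc] at h2
  have h3 := Multiset.toFinset_card_le s
  omega

theorem ell_le_far (k m : ℕ) (hm : 2 ≤ m) (hm2 : m ≤ k + 2) (w : ℂ) (hw : 1 < ‖w‖)
    (h : 1 / 2 ≤ ‖((m : ℝ) : ℂ) - w‖) :
    ell (m : ℝ)⁻¹ w ≤ Real.log ‖1 - (((m : ℝ)⁻¹ : ℝ) : ℂ) * w‖ + Real.log (bd k) := by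
  unfold ell
  rw [if_neg (not_le.mpr hw)]
  have hm0 : (2 : ℝ) ≤ m := by exact_mod_cast hm
  have hmk : (m : ℝ) ≤ (k : ℝ) + 2 := by exact_mod_cast hm2
  have hmpos : (0 : ℝ) < m := by linarith
  have hmC : ((m : ℝ) : ℂ) ≠ 0 := by exact_mod_cast hmpos.ne'
  have h1 : ‖1 - (((m : ℝ)⁻¹ : ℝ) : ℂ) * w‖ = (m : ℝ)⁻¹ * ‖((m : ℝ) : ℂ) - w‖ := by
    have h2 : 1 - (((m : ℝ)⁻¹ : ℝ) : ℂ) * w =
        (((m : ℝ)⁻¹ : ℝ) : ℂ) * (((m : ℝ) : ℂ) - w) := by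
      rw [mul_sub, Complex.ofReal_inv, inv_mul_cancel₀ hmC]
    rw [h2, norm_mul, Complex.norm_real, Real.norm_eq_abs, abs_of_pos (by positivity)]
  have hpos : 0 < ‖((m : ℝ) : ℂ) - w‖ := by linarith
  have h3 : ‖(((m : ℝ)⁻¹ : ℝ) : ℂ) - w‖ ≤ (m : ℝ) + ‖((m : ℝ) : ℂ) - w‖ := by
    have h4 : (((m : ℝ)⁻¹ : ℝ) : ℂ) - w =
        ((((m : ℝ)⁻¹ - (m : ℝ)) : ℝ) : ℂ) + (((m : ℝ) : ℂ) - w) := by
      push_cast
      ring
    rw [h4]
    refine (norm_add_le _ _).trans (add_le_add ?_ le_rfl)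
    rw [Complex.norm_real, Real.norm_eq_abs, abs_le]
    have h5 : (m : ℝ)⁻¹ ≤ 1 := inv_le_one_of_one_le₀ (by linarith)
    have h6 : 0 < (m : ℝ)⁻¹ := by positivity
    constructor <;> linarith
  have h4 : 0 < ‖(((m : ℝ)⁻¹ : ℝ) : ℂ) - w‖ := by
    rw [norm_pos_iff, sub_ne_zero]
    rintro h5
    rw [← h5, Complex.norm_real, Real.norm_eq_abs, abs_of_pos (by positivity)] at hw
    have h6 : (m : ℝ)⁻¹ ≤ 1 := inv_le_one_of_one_le₀ (by linarith)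
    linarith
  have hbd : 0 < bd k := by linarith [bd_pos k]
  rw [h1, ← Real.log_mul (by positivity) hbd.ne']
  refine Real.log_le_log h4 (h3.trans ?_)
  have h5 : (m : ℝ)⁻¹ * ‖((m : ℝ) : ℂ) - w‖ * bd k =
      ‖((m : ℝ) : ℂ) - w‖ * (bd k * (m : ℝ)⁻¹) := by ring
  have h6 : 2 * (m : ℝ) + 2 ≤ bd k * (m : ℝ)⁻¹ := by
    rw [← div_eq_mul_inv, le_div_iff₀ hmpos]
    unfold bd
    nlinarith
  rw [h5]
  have h7 := mul_le_mul_of_nonneg_left h6 hpos.le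
  nlinarith

theorem sum_ell_le (k m : ℕ) (hm : 2 ≤ m) (hm2 : m ≤ k + 2) (R : Multiset ℂ)
    (h : ∀ w ∈ R, 1 < ‖w‖ → 1 / 2 ≤ ‖((m : ℝ) : ℂ) - w‖) :
    (R.map (ell (m : ℝ)⁻¹)).sum ≤
      (R.map fun w => Real.log ‖1 - (((m : ℝ)⁻¹ : ℝ) : ℂ) * w‖).sum +
        (R.filter fun w => 1 < ‖w‖).card * Real.log (bd k) := by
  classical
  induction R using Multiset.induction_on with
  | empty => simp
  | cons a s ih =>
    have h1 := ih fun w hw => h w (Multiset.mem_cons_of_mem hw)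
    rw [Multiset.map_cons, Multiset.map_cons, Multiset.sum_cons, Multiset.sum_cons]
    by_cases ha : 1 < ‖a‖
    · rw [Multiset.filter_cons_of_pos (p := fun w : ℂ => 1 < ‖w‖) s ha, Multiset.card_cons]
      have h2 := ell_le_far k m hm hm2 a ha (h a (Multiset.mem_cons_self a s) ha)
      rw [Nat.cast_add, Nat.cast_one, add_mul, one_mul]
      linarith
    · rw [Multiset.filter_cons_of_neg (p := fun w : ℂ => 1 < ‖w‖) s ha]
      have h2 : ell (m : ℝ)⁻¹ a = Real.log ‖1 - (((m : ℝ)⁻¹ : ℝ) : ℂ) * a‖ := by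
        unfold ell
        rw [if_pos (not_lt.mp ha)]
      linarith

/-- choice of the point -/
theorem J_leK (hJ : S_J) (P : ℂ[X]) (hP : P ≠ 0) (k : ℕ)
    (h : (P.roots.filter fun w => 1 < ‖w‖).card ≤ k) :
    ∃ r t : ℝ, r * t = 1 ∧ |r| ≤ 1 / 2 ∧ 1 ≤ |t| ∧ P.eval (t : ℂ) ≠ 0 ∧
      J r P ≤ Real.log ‖P.eval (t : ℂ)‖ - P.natDegree * Real.log |t| + k * Real.log (bd k) := by
  obtain ⟨m, hm, hm2, hw⟩ := exists_point k _ h
  have hm0 : (2 : ℝ) ≤ m := by exact_mod_cast hm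
  have hmpos : (0 : ℝ) < m := by linarith
  have hfar : ∀ w ∈ P.roots, 1 < ‖w‖ → 1 / 2 ≤ ‖((m : ℝ) : ℂ) - w‖ := fun w h1 h2 =>
    hw w (Multiset.mem_filter.mpr ⟨h1, h2⟩)
  have ht0 : P.eval ((m : ℝ) : ℂ) ≠ 0 := by
    intro h0
    have h1 := (mem_roots hP).mpr h0
    have h2 := hfar _ h1 (by
      rw [Complex.norm_real, Real.norm_eq_abs, abs_of_pos hmpos]
      linarith)
    rw [sub_self, norm_zero] at h2
    norm_num at h2
  have hr : |(m : ℝ)⁻¹| ≤ 1 / 2 := by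
    rw [abs_of_pos (by positivity), inv_eq_one_div]
    exact one_div_le_one_div_of_le (by norm_num) hm0
  refine ⟨(m : ℝ)⁻¹, m, inv_mul_cancel₀ hmpos.ne', hr, ?_, ht0, ?_⟩
  · rw [abs_of_pos hmpos]
    linarith
  · rw [hJ (m : ℝ)⁻¹ P (by linarith) hP, ← log_eval P (m : ℝ)⁻¹ m (inv_mul_cancel₀ hmpos.ne') ht0]
    have h1 := sum_ell_le k m hm hm2 P.roots hfar
    have h2 : ((P.roots.filter fun w => 1 < ‖w‖).card : ℝ) * Real.log (bd k) ≤
        k * Real.log (bd k) :=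
      mul_le_mul_of_nonneg_right (by exact_mod_cast h) (Real.log_nonneg (bd_pos k))
    linarith

theorem one_caseK (hI : S_int) (hJ : S_J) (k : ℕ) (r t c : ℝ) (hrt : r * t = 1)
    (hr : |r| ≤ 1 / 2) (P F : ℂ[X]) (hP : P ≠ 0) (hF : F ≠ 0)
    (hdeg : F.natDegree ≤ P.natDegree) (ht : 1 ≤ |t|) (hPt : P.eval (t : ℂ) ≠ 0)
    (hle : J r P ≤ Real.log ‖P.eval (t : ℂ)‖ - P.natDegree * Real.log |t| + k * Real.log (bd k))
    (hc : 0 ≤ c) (hFt : ‖P.eval (t : ℂ)‖ ≤ (1 + c) * ‖F.eval (t : ℂ)‖)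
    (hz : ∀ z : ℂ, ‖z‖ = 1 → ‖F.eval z‖ ≤ ‖P.eval z‖) :
    P.mahlerMeasure ≤ ((1 + c) * bd k ^ k) ^ 3 * F.mahlerMeasure := by
  have hc1 : 0 < 1 + c := by linarith
  have hbd : 0 < bd k := by linarith [bd_pos k]
  have hFt0 : F.eval (t : ℂ) ≠ 0 := by
    intro h0
    rw [h0, norm_zero, mul_zero] at hFt
    exact hPt (norm_eq_zero.mp (le_antisymm hFt (norm_nonneg _)))
  have h1 := J_ge hJ r t hrt (by linarith) F hFt0
  have h2 := harK hI r P F hr hP hF hz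
  have h3 : Real.log ‖P.eval (t : ℂ)‖ ≤ Real.log (1 + c) + Real.log ‖F.eval (t : ℂ)‖ := by
    rw [← Real.log_mul hc1.ne' (norm_ne_zero_iff.mpr hFt0)]
    exact Real.log_le_log (norm_pos_iff.mpr hPt) hFt
  have h4 : (F.natDegree : ℝ) * Real.log |t| ≤ P.natDegree * Real.log |t| :=
    mul_le_mul_of_nonneg_right (by exact_mod_cast hdeg) (Real.log_nonneg ht)
  have h5 : P.logMahlerMeasure ≤ 3 * Real.log ((1 + c) * bd k ^ k) + F.logMahlerMeasure := by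
    rw [Real.log_mul hc1.ne' (by positivity), Real.log_pow]
    linarith
  rw [Polynomial.mahlerMeasure_def_of_ne_zero hP, Polynomial.mahlerMeasure_def_of_ne_zero hF]
  calc Real.exp P.logMahlerMeasure ≤
        Real.exp (3 * Real.log ((1 + c) * bd k ^ k) + F.logMahlerMeasure) :=
        Real.exp_le_exp.mpr h5
    _ = ((1 + c) * bd k ^ k) ^ 3 * Real.exp F.logMahlerMeasure := by
        rw [Real.exp_add, show 3 * Real.log ((1 + c) * bd k ^ k) =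
          ((3 : ℕ) : ℝ) * Real.log ((1 + c) * bd k ^ k) by norm_num, ← Real.log_pow,
          Real.exp_log (by positivity)]

theorem cmpK (hI : S_int) (hJ : S_J) (k : ℕ) (P F H : ℂ[X]) (c : ℝ) (hc : 0 ≤ c) (hP : P ≠ 0)
    (hF : F ≠ 0) (hH : H ≠ 0) (hPF : P = F + C (c : ℂ) * H)
    (hdF : F.natDegree ≤ P.natDegree) (hdH : H.natDegree ≤ P.natDegree)
    (hzF : ∀ z : ℂ, ‖z‖ = 1 → ‖F.eval z‖ ≤ ‖P.eval z‖)
    (hzH : ∀ z : ℂ, ‖z‖ = 1 → ‖H.eval z‖ ≤ ‖P.eval z‖)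
    (h : (P.roots.filter fun w => 1 < ‖w‖).card ≤ k) :
    P.mahlerMeasure ≤ ((1 + c) * bd k ^ k) ^ 3 * max F.mahlerMeasure H.mahlerMeasure := by
  obtain ⟨r, t, hrt, hr, ht, hPt, hle⟩ := J_leK hJ P hP k h
  have hbd : 0 < bd k := by linarith [bd_pos k]
  have hval : ‖P.eval (t : ℂ)‖ ≤ ‖F.eval (t : ℂ)‖ + c * ‖H.eval (t : ℂ)‖ := by
    conv_lhs => rw [hPF]
    rw [eval_add, eval_mul, eval_C]
    refine (norm_add_le _ _).trans (le_of_eq ?_)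
    rw [norm_mul, Complex.norm_real, Real.norm_eq_abs, abs_of_nonneg hc]
  have hpos : (0 : ℝ) ≤ ((1 + c) * bd k ^ k) ^ 3 := by positivity
  rcases le_total ‖F.eval (t : ℂ)‖ ‖H.eval (t : ℂ)‖ with h1 | h1
  · refine (one_caseK hI hJ k r t c hrt hr P H hP hH hdH ht hPt hle hc ?_ hzH).trans
      (mul_le_mul_of_nonneg_left (le_max_right _ _) hpos)
    linarith
  · refine (one_caseK hI hJ k r t c hrt hr P F hP hF hdF ht hPt hle hc ?_ hzF).trans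
      (mul_le_mul_of_nonneg_left (le_max_left _ _) hpos)
    have := mul_le_mul_of_nonneg_left h1 hc
    linarith

end

end Pool.Agent.H270.SP
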