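import Pool.Agent.H270.SP.Gen
import Pool.Agent.H270.SP.KCard
import Pool.Agent.H270.SP.KCmp

/-!
# Symmetrizable pairs with at most `k` negative squares
-/

set_option autoImplicit false

namespace Pool.Agent.H270.SP

open Matrix Polynomial Filter Topology MeasureTheory
open Pool.Agent.W5h66.CX (pnc pnc_eval pnc_map pnc_lead pnc_natDegree pnc_ne Lor cm card_pnc
  measure_cases pos_right pos_left det_add_single toC_eq star_eval re_form star_form)
open Pool.Agent.H261R2.CM (toC ez ev1 m1 mx1 D_norm_ez D_log_m1 D_intervalIntegrable_log D_ae_ne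
  LL LL_mono)

noncomputable section

variable {n : ℕ}

/-- symmetrizable pairs of integer matrices whose form has at most `k` negative squares -/
structure SeiK (k : ℕ) (U L : Matrix (Fin n) (Fin n) ℤ) (d : Fin n → ℝ) : Prop where
  pos : ∀ i, 0 < d i
  symm : ∀ i j, d i * U i j = d j * L j i
  lor : ∃ v : Fin k → Fin n → ℝ, ∀ x : Fin n → ℝ,
    0 ≤ ∑ i, ∑ j, d i * U i j * x i * x j + ∑ l, (∑ i, v l i * x i) ^ 2

theorem SeiK.card (hC : S_cnt) {k : ℕ} {U L : Matrix (Fin n) (Fin n) ℤ} {d : Fin n → ℝ}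
    (h : SeiK k U L d) (e : Fin n → ℤ) (he : ∀ i, 0 ≤ e i) (hd : (U + diagonal e).det ≠ 0) :
    ((toC (pol U L e)).roots.filter fun z => 1 < ‖z‖).card ≤ k := by
  obtain ⟨v, hv⟩ := h.lor
  have hprod : 0 < ∏ i, d i := Finset.prod_pos fun i _ => h.pos i
  have h1 := card_pncK hC (Wr U d) v (fun x => by
      rw [form_eq]
      exact hv x) (fun i => (e i : ℝ) * d i)
    (fun i => mul_nonneg (by exact_mod_cast he i) (h.pos i).le) (by
      rw [W_add, Matrix.det_mul, Matrix.det_diagonal, ← map_add_diag, det_real]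
      exact mul_ne_zero hprod.ne' (by exact_mod_cast hd))
  have h2 : pnc (Wr U d + diagonal fun i => (e i : ℝ) * d i)
      ((Wr U d)ᵀ - diagonal fun i => (e i : ℝ) * d i) =
      C (∏ i, d i) * pnc (U.map (Int.castRingHom ℝ) + diagonal fun i => (e i : ℝ))
        (L.map (Int.castRingHom ℝ) - diagonal fun i => (e i : ℝ)) := by
    refine Polynomial.funext fun t => ?_
    rw [eval_mul, eval_C, pnc_eval, pnc_eval, W_add, W_sub h.symm, ← Matrix.mul_smul,
      ← Matrix.mul_add, Matrix.det_mul, Matrix.det_diagonal]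
  rw [h2, ← pol_real, Polynomial.map_mul, Polynomial.map_C, roots_C_mul] at h1
  · rw [toC_eq]
    exact h1
  · rw [Complex.ofRealHom_eq_coe]
    exact_mod_cast hprod.ne'

/-- **The measure of the auxiliary polynomial.** -/
theorem SeiK.aux (hC : S_cnt) (hI : S_int) (hJ : S_J) {k : ℕ}
    {U L : Matrix (Fin (n + 1)) (Fin (n + 1)) ℤ} {d : Fin (n + 1) → ℝ} (h : SeiK k U L d)
    (i : Fin (n + 1)) (c : ℤ) (hc : 1 ≤ c)
    (hF : alex U L ≠ 0) (hG : alex (SP.del U i) (SP.del L i) ≠ 0)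
    (hab : U.det + c * (SP.del U i).det ≠ 0) :
    m1 (alex U L + C c * ((X - 1) * alex (SP.del U i) (SP.del L i))) ≤
      ((1 + (c : ℝ)) * bd k ^ k) ^ 3 *
        max (m1 (alex U L)) (m1 (alex (SP.del U i) (SP.del L i))) := by
  have hc0 : (1 : ℝ) ≤ c := by exact_mod_cast hc
  have hne : (U + diagonal (Pi.single i c)).det ≠ 0 := by rwa [det_single_c]
  have hX : (X - 1 : ℤ[X]) ≠ 0 := X_sub_C_ne_zero (1 : ℤ)
  have hH : (X - 1) * alex (SP.del U i) (SP.del L i) ≠ 0 := mul_ne_zero hX hG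
  have hmH : m1 (alex (SP.del U i) (SP.del L i)) =
      m1 ((X - 1) * alex (SP.del U i) (SP.del L i)) := by
    rw [Pool.Agent.Y820.LB.m1_mul, m1_X1, one_mul]
  have hout := h.card hC (Pi.single i c) (single_nonneg_c i c (by omega)) hne
  have hdeg := pol_natDegree U L _ hne
  have hPne := pol_ne U L _ hne
  rw [pol_single_c] at hout hdeg hPne
  have hdegP : (toC (alex U L + C c * ((X - 1) * alex (SP.del U i) (SP.del L i)))).natDegree =
      n + 1 := by
    unfold toC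
    rw [natDegree_map_eq_of_injective (RingHom.injective_int _), hdeg]
  have hcirc := fun z hz => circle_c h.pos h.symm i c z hz
  rw [hmH]
  refine cmpK hI hJ k _ (toC (alex U L)) (toC ((X - 1) * alex (SP.del U i) (SP.del L i))) c
    (by linarith) (Pool.Agent.H261R2.CM.D_toC_ne _ hPne) (Pool.Agent.H261R2.CM.D_toC_ne _ hF)
    (Pool.Agent.H261R2.CM.D_toC_ne _ hH) ?_ ?_ ?_ ?_ ?_ hout
  · unfold toC
    simp
  · rw [hdegP]
    exact natDegree_alex_le U L
  · rw [hdegP, Pool.Agent.Y820.LB.toC_mul]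
    refine natDegree_mul_le.trans ?_
    have h1 := natDegree_alex_le (SP.del U i) (SP.del L i)
    have h2 : (toC (X - 1 : ℤ[X])).natDegree ≤ 1 := by
      unfold toC
      refine natDegree_map_le.trans ?_
      exact (natDegree_X_sub_C (1 : ℤ)).le
    omega
  · intro z hz
    refine abs_le_of_sq_le_sq' ?_ (norm_nonneg _) |>.2
    rw [hcirc z hz]
    nlinarith [sq_nonneg ((c : ℝ) *
      ‖(toC ((X - 1) * alex (SP.del U i) (SP.del L i))).eval z‖)]
  · intro z hz
    refine abs_le_of_sq_le_sq' ?_ (norm_nonneg _) |>.2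
    rw [hcirc z hz]
    have h1 : 1 ≤ (c : ℝ) ^ 2 := by nlinarith
    nlinarith [sq_nonneg ‖(toC (alex U L)).eval z‖, mul_le_mul_of_nonneg_right h1
      (sq_nonneg ‖(toC ((X - 1) * alex (SP.del U i) (SP.del L i))).eval z‖)]

/-- the inequality for the pair -/
theorem SeiK.pair (hC : S_cnt) (hI : S_int) (hJ : S_J) {k : ℕ}
    {U L : Matrix (Fin (n + 1)) (Fin (n + 1)) ℤ} {d : Fin (n + 1) → ℝ} (h : SeiK k U L d)
    (i : Fin (n + 1)) (hF : alex U L ≠ 0)
    (hG : alex (SP.del U i) (SP.del L i) ≠ 0) (hab : U.det ≠ 0 ∨ (SP.del U i).det ≠ 0) :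
    mx1 (alex U L) ((X - 1) * alex (SP.del U i) (SP.del L i)) ≤
      Real.log ((3 * bd k ^ k) ^ 3 *
        max (m1 (alex U L)) (m1 (alex (SP.del U i) (SP.del L i)))) := by
  obtain ⟨c, hc, hc2, hne⟩ : ∃ c : ℤ, 1 ≤ c ∧ c ≤ 2 ∧ U.det + c * (SP.del U i).det ≠ 0 := by
    by_cases h1 : U.det + 1 * (SP.del U i).det = 0
    · refine ⟨2, by norm_num, by norm_num, fun h2 => ?_⟩
      rcases hab with h3 | h3
      · exact h3 (by linarith)
      · exact h3 (by linarith)
    · exact ⟨1, le_rfl, by norm_num, h1⟩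
  set P := alex U L + C c * ((X - 1) * alex (SP.del U i) (SP.del L i)) with hP
  have hc0 : (1 : ℝ) ≤ c := by exact_mod_cast hc
  have hc20 : (c : ℝ) ≤ 2 := by exact_mod_cast hc2
  have hP0 : P ≠ 0 := by
    rw [hP, ← pol_single_c]
    refine pol_ne _ _ _ ?_
    rwa [det_single_c]
  have hbd : 0 < bd k := by linarith [bd_pos k]
  have h2 : 0 < m1 P := lt_of_lt_of_le one_pos (Pool.Agent.Y820.LB.one_le_m1 hP0)
  have h3 : m1 P ≤ (3 * bd k ^ k) ^ 3 *
      max (m1 (alex U L)) (m1 (alex (SP.del U i) (SP.del L i))) := by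
    refine (h.aux hC hI hJ i c hc hF hG hne).trans (mul_le_mul_of_nonneg_right ?_ ?_)
    · have h4 : (1 + (c : ℝ)) * bd k ^ k ≤ 3 * bd k ^ k :=
        mul_le_mul_of_nonneg_right (by linarith) (by positivity)
      exact pow_le_pow_left₀ (by positivity) h4 3
    · exact le_max_of_le_left (by linarith [Pool.Agent.Y820.LB.one_le_m1 hF])
  refine le_trans ?_ (Real.log_le_log h2 h3)
  rw [D_log_m1]
  refine intervalIntegral.integral_mono_ae zero_le_one
    (Pool.Agent.H261R2.CM.mx1_intervalIntegrable _ _ hF)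
    (D_intervalIntegrable_log P) ?_
  filter_upwards [D_ae_ne (alex U L) hF] with t h1
  have h3 := circle_c h.pos h.symm i c (ez t) (Pool.Agent.H261R2.CM.D_norm_ez t)
  change ‖ev1 P t‖ ^ 2 = ‖ev1 (alex U L) t‖ ^ 2 + (c : ℝ) ^ 2 *
    ‖ev1 ((X - 1) * alex (SP.del U i) (SP.del L i)) t‖ ^ 2 at h3
  have h4 : 0 < ‖ev1 (alex U L) t‖ := norm_pos_iff.mpr h1
  have h5 : 1 ≤ (c : ℝ) ^ 2 := by nlinarith
  have h6 : 0 ≤ ‖ev1 (alex U L) t‖ ^ 2 := sq_nonneg _
  have h7 : 0 ≤ ‖ev1 ((X - 1) * alex (SP.del U i) (SP.del L i)) t‖ ^ 2 := sq_nonneg _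
  refine Real.log_le_log (lt_max_of_lt_left h4) (max_le ?_ ?_)
  · exact abs_le_of_sq_le_sq' (by nlinarith) (norm_nonneg _) |>.2
  · exact abs_le_of_sq_le_sq' (by nlinarith) (norm_nonneg _) |>.2

/-- **The bounded companion.** -/
theorem SeiK.mem (hC : S_cnt) (hI : S_int) (hJ : S_J) {k : ℕ}
    {U L : Matrix (Fin (n + 1)) (Fin (n + 1)) ℤ} {d : Fin (n + 1) → ℝ} (h : SeiK k U L d)
    (i : Fin (n + 1)) (hF : alex U L ≠ 0)
    (hG : alex (SP.del U i) (SP.del L i) ≠ 0) (hab : U.det ≠ 0 ∨ (SP.del U i).det ≠ 0)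
    (hcop : ∀ z : ℂ, 1 < ‖z‖ → (toC (alex U L)).eval z = 0 →
      (toC (alex (SP.del U i) (SP.del L i))).eval z ≠ 0) :
    m1 (alex U L) ∈ LL (Real.log ((3 * bd k ^ k) ^ 3 *
      max (m1 (alex U L)) (m1 (alex (SP.del U i) (SP.del L i))))) := by
  refine LL_mono (h.pair hC hI hJ i hF hG hab) (pair_mem _ _ hF ?_ fun z hz h0 => ?_)
  · refine mul_ne_zero ?_ hG
    exact X_sub_C_ne_zero (1 : ℤ)
  · rw [eval_X1]
    refine mul_ne_zero ?_ (hcop z hz h0)
    intro h1
    rw [sub_eq_zero.mp h1, norm_one] at hz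
    exact lt_irrefl _ hz

theorem bd_pow_mono {k m : ℕ} (h : k ≤ m) : bd k ^ k ≤ bd m ^ m := by
  have h1 : bd k ≤ bd m := by
    unfold bd
    have h2 : (k : ℝ) ≤ m := by exact_mod_cast h
    have h3 : (0 : ℝ) ≤ k := Nat.cast_nonneg k
    nlinarith
  have h2 := bd_pos k
  calc bd k ^ k ≤ bd m ^ k := pow_le_pow_left₀ (by linarith) h1 k
    _ ≤ bd m ^ m := pow_le_pow_right₀ (bd_pos m) h

end

end Pool.Agent.H270.SP
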