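import Pool.Graph.R_seed8.Results.MP_7ab245_nt.CoprimePairs
import Pool.Agent.H270.SP.KGen

/-!
# An explicit lower bound for the irreducible case
-/

set_option autoImplicit false

namespace Pool.Agent.H270.SP

open Matrix Polynomial Filter Topology MeasureTheory
open Pool.Agent.W5h66.CX (pnc pnc_eval pnc_map pnc_lead pnc_natDegree pnc_ne)
open Pool.Agent.H261R2.CM (toC ez ev1 m1 mx1)

noncomputable section

variable {n : ℕ}

theorem pairMean_eq (F H : ℤ[X]) :
    Pool.Agent.Results.MP_7ab245_nt.CoprimePairs.pairMean F H 1 = mx1 F H := by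
  unfold Pool.Agent.Results.MP_7ab245_nt.CoprimePairs.pairMean
  rw [Pool.Agent.H261R2.CM.D_circleAverage]
  unfold mx1
  congr 1
  funext t
  rw [pow_one]
  have h1 : ∀ (P : ℤ[X]) (z : ℂ), aeval z P = (toC P).eval z := by
    intro P z
    unfold toC
    rw [eval_map, aeval_def]
    rfl
  rw [h1, h1]
  rfl

/-- `F(0) = det L = det U` -/
theorem alex_zero {U L : Matrix (Fin n) (Fin n) ℤ} {d : Fin n → ℝ} (hp : ∀ i, 0 < d i)
    (hs : ∀ i j, d i * U i j = d j * L j i) : (alex U L).eval 0 = U.det := by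
  have h1 : (alex U L).eval 0 = L.det := by
    rw [alex_eq, pnc_eval, zero_smul, zero_add]
  rw [h1]
  have h2 := det_swap hp hs 0
  rw [zero_smul, add_zero, zero_smul, zero_add, ← RingHom.mapMatrix_apply,
    ← RingHom.mapMatrix_apply, ← RingHom.map_det, ← RingHom.map_det] at h2
  exact (Int.cast_injective (α := ℂ) (by simpa using h2)).symm

theorem det_ne_of_irred {U L : Matrix (Fin n) (Fin n) ℤ} {d : Fin n → ℝ} (hp : ∀ i, 0 < d i)
    (hs : ∀ i j, d i * U i j = d j * L j i) (hirr : Irreducible (alex U L))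
    (hM : 1 < m1 (alex U L)) : U.det ≠ 0 := by
  intro h0
  have h1 := alex_zero hp hs
  rw [h0] at h1
  have h2 : (X : ℤ[X]) ∣ alex U L := by
    rw [X_dvd_iff, coeff_zero_eq_eval_zero, h1]
  have h3 : Associated (X : ℤ[X]) (alex U L) :=
    (Polynomial.irreducible_X).associated_of_dvd hirr h2
  obtain ⟨u, hu⟩ := h3
  obtain ⟨r, hr, hr2⟩ := Polynomial.isUnit_iff.mp u.isUnit
  rw [← hu, Pool.Agent.Y820.LB.m1_mul, ← hr2] at hM
  have h4 : m1 (X : ℤ[X]) = 1 := by
    unfold m1 toC
    have h6 := Polynomial.mahlerMeasure_X_sub_C 0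
    rw [C_0, sub_zero, norm_zero] at h6
    rw [Polynomial.map_X, h6]
    norm_num
  have h5 : m1 (C r : ℤ[X]) = 1 := by
    unfold m1 toC
    rw [Polynomial.map_C, Polynomial.mahlerMeasure_const]
    rcases Int.isUnit_iff.mp hr with rfl | rfl <;> simp
  rw [h4, h5] at hM
  norm_num at hM

/-- **The explicit bound.** -/
theorem leh (hC : S_cnt) (hI : S_int) (hJ : S_J) : ∃ c : ℝ, 0 < c ∧ ∀ (n k : ℕ)
    (U L : Matrix (Fin (n + 1)) (Fin (n + 1)) ℤ) (d : Fin (n + 1) → ℝ) (i : Fin (n + 1)),
    SeiK k U L d → Irreducible (alex U L) → alex (SP.del U i) (SP.del L i) ≠ 0 →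
    1 < m1 (alex U L) →
    c / (1 + k * Real.log (k + 2) + Real.log (m1 (alex (SP.del U i) (SP.del L i)))) ^ 3 ≤
      Real.log (m1 (alex U L)) := by
  obtain ⟨c, hc, h⟩ := Pool.Agent.Results.MP_7ab245_nt.CoprimePairs.result
  have hl2 : 0 < Real.log 2 := Real.log_pos (by norm_num)
  refine ⟨min (c / 24 ^ 3) (Real.log 2), lt_min (by positivity) hl2, ?_⟩
  intro n k U L d i hS hirr hG hM
  have hF : alex U L ≠ 0 := hirr.ne_zero
  have hdet := det_ne_of_irred hS.pos hS.symm hirr hM
  have hG1 := Pool.Agent.Y820.LB.one_le_m1 hG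
  set g := Real.log (m1 (alex (SP.del U i) (SP.del L i))) with hg
  have hg0 : 0 ≤ g := Real.log_nonneg hG1
  have hk0 : (0 : ℝ) ≤ k := Nat.cast_nonneg k
  have hlk : 0 ≤ Real.log ((k : ℝ) + 2) := Real.log_nonneg (by linarith)
  set x := 1 + (k : ℝ) * Real.log (k + 2) + g with hx
  have hx1 : 1 ≤ x := by
    have := mul_nonneg hk0 hlk
    linarith
  rcases le_or_gt 2 (m1 (alex U L)) with h2 | h2
  · have h3 : Real.log 2 ≤ Real.log (m1 (alex U L)) := Real.log_le_log (by norm_num) h2
    refine le_trans ?_ h3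
    have h4 : 1 ≤ x ^ 3 := one_le_pow₀ hx1
    refine (div_le_self (le_min (by positivity) hl2.le) h4).trans (min_le_right _ _)
  · have hX : (X - 1 : ℤ[X]) ≠ 0 := X_sub_C_ne_zero (1 : ℤ)
    have hdegF : (alex U L).natDegree = n + 1 := by
      rw [alex_eq, pnc_natDegree _ _ hdet, Fintype.card_fin]
    have hdegG : (alex (SP.del U i) (SP.del L i)).natDegree ≤ n := by
      rw [alex_eq]
      have h3 := Polynomial.natDegree_det_X_add_C_le (SP.del U i) (SP.del L i)
      rw [Fintype.card_fin] at h3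
      exact h3
    have hdegH : ((X - 1) * alex (SP.del U i) (SP.del L i)).natDegree ≤ n + 1 := by
      refine natDegree_mul_le.trans ?_
      have h3 : (X - 1 : ℤ[X]).natDegree = 1 := natDegree_X_sub_C (1 : ℤ)
      omega
    have hnd : ¬ alex U L ∣ (X - 1) * alex (SP.del U i) (SP.del L i) := by
      intro h3
      rcases (hirr.prime.dvd_mul).mp h3 with h4 | h4
      · have h5 : Associated (alex U L) (X - 1 : ℤ[X]) :=
          hirr.associated_of_dvd (Polynomial.irreducible_X_sub_C (1 : ℤ)) h4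
        obtain ⟨w, hw⟩ := h4
        have h6 : m1 (X - 1 : ℤ[X]) = m1 (alex U L) * m1 w := by
          rw [hw, Pool.Agent.Y820.LB.m1_mul]
        have hw0 : w ≠ 0 := by
          rintro rfl
          rw [mul_zero] at hw
          exact hX hw
        have h7 := Pool.Agent.Y820.LB.one_le_m1 hw0
        rw [m1_X1] at h6
        nlinarith
      · have h5 := natDegree_le_of_dvd h4 hG
        omega
    have h3 := h (alex U L) ((X - 1) * alex (SP.del U i) (SP.del L i)) 1 one_pos hirr hnd hM
    rw [pairMean_eq] at h3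
    have hpair := hS.pair hC hI hJ i hF hG (Or.inl hdet)
    set K := mx1 (alex U L) ((X - 1) * alex (SP.del U i) (SP.del L i)) with hK
    have hbd : 0 < bd k := by linarith [bd_pos k]
    have hmax : max (m1 (alex U L)) (m1 (alex (SP.del U i) (SP.del L i))) ≤
        2 * m1 (alex (SP.del U i) (SP.del L i)) := max_le (by linarith) (by linarith)
    have hmax0 : 0 < max (m1 (alex U L)) (m1 (alex (SP.del U i) (SP.del L i))) :=
      lt_max_of_lt_left (by linarith)
    have hK1 : K ≤ 3 * (Real.log 3 + k * Real.log (bd k)) + (Real.log 2 + g) := by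
      refine hpair.trans ?_
      rw [Real.log_mul (by positivity) hmax0.ne', Real.log_pow, Real.log_mul (by norm_num)
        (by positivity), Real.log_pow]
      have h4 := Real.log_le_log hmax0 hmax
      rw [Real.log_mul (by norm_num) (by linarith)] at h4
      push_cast
      linarith
    have hbd4 : Real.log (bd k) ≤ 4 * Real.log ((k : ℝ) + 2) := by
      rw [show 4 * Real.log ((k : ℝ) + 2) = ((4 : ℕ) : ℝ) * Real.log ((k : ℝ) + 2) by norm_num,
        ← Real.log_pow]
      refine Real.log_le_log hbd ?_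
      unfold bd
      nlinarith [mul_nonneg hk0 hk0, mul_nonneg hk0 (mul_nonneg hk0 hk0),
        mul_nonneg (mul_nonneg hk0 hk0) (mul_nonneg hk0 hk0)]
    have hl3 : Real.log 3 ≤ 2 := by
      have := Real.log_le_sub_one_of_pos (show (0 : ℝ) < 3 by norm_num)
      linarith
    have hl2' : Real.log 2 ≤ 1 := by
      have := Real.log_le_sub_one_of_pos (show (0 : ℝ) < 2 by norm_num)
      linarith
    have hK2 : 1 + K ≤ 12 * x := by
      have h5 := mul_le_mul_of_nonneg_left hbd4 hk0
      have h6 := mul_nonneg hk0 hlk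
      rw [hx]
      nlinarith
    have hK0 : 0 ≤ K := by
      have h5 : Real.log (m1 (alex U L)) ≤ K := by
        rw [Pool.Agent.H261R2.CM.D_log_m1]
        refine intervalIntegral.integral_mono_ae zero_le_one
          (Pool.Agent.H261R2.CM.D_intervalIntegrable_log _)
          (Pool.Agent.H261R2.CM.mx1_intervalIntegrable _ _ hF) ?_
        filter_upwards [Pool.Agent.H261R2.CM.D_ae_ne (alex U L) hF] with t h1
        exact Real.log_le_log (norm_pos_iff.mpr h1) (le_max_left _ _)
      exact (Real.log_nonneg hM.le).trans h5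
    have hratio : (1 + ((((X - 1) * alex (SP.del U i) (SP.del L i)).natDegree : ℕ) : ℝ) /
        (((1 : ℕ) : ℝ) * ((alex U L).natDegree : ℝ))) ≤ 2 := by
      rw [hdegF, Nat.cast_one, one_mul]
      have h5 : ((((X - 1) * alex (SP.del U i) (SP.del L i)).natDegree : ℕ) : ℝ) ≤
          ((n + 1 : ℕ) : ℝ) := by exact_mod_cast hdegH
      have h6 : (0 : ℝ) < ((n + 1 : ℕ) : ℝ) := by positivity
      have h7 : ((((X - 1) * alex (SP.del U i) (SP.del L i)).natDegree : ℕ) : ℝ) /
          ((n + 1 : ℕ) : ℝ) ≤ 1 := by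
        rw [div_le_one h6]
        exact h5
      linarith
    have hratio0 : 0 ≤ ((((X - 1) * alex (SP.del U i) (SP.del L i)).natDegree : ℕ) : ℝ) /
        (((1 : ℕ) : ℝ) * ((alex U L).natDegree : ℝ)) := by positivity
    refine le_trans ?_ h3
    have h8 : (1 + ((((X - 1) * alex (SP.del U i) (SP.del L i)).natDegree : ℕ) : ℝ) /
        (((1 : ℕ) : ℝ) * ((alex U L).natDegree : ℝ))) * (1 + K / ((1 : ℕ) : ℝ)) ≤ 24 * x := by
      rw [Nat.cast_one, div_one]
      rw [Nat.cast_one] at hratio hratio0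
      have h9 := mul_le_mul hratio hK2 (by linarith) (by norm_num : (0 : ℝ) ≤ 2)
      linarith
    have h9 : 0 < (1 + ((((X - 1) * alex (SP.del U i) (SP.del L i)).natDegree : ℕ) : ℝ) /
        (((1 : ℕ) : ℝ) * ((alex U L).natDegree : ℝ))) * (1 + K / ((1 : ℕ) : ℝ)) := by
      have h10 : 0 ≤ K / ((1 : ℕ) : ℝ) := by positivity
      positivity
    calc min (c / 24 ^ 3) (Real.log 2) / x ^ 3 ≤ (c / 24 ^ 3) / x ^ 3 :=
          div_le_div_of_nonneg_right (min_le_left _ _) (by positivity)
      _ = c / (24 * x) ^ 3 := by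
          rw [mul_pow, div_div]
      _ ≤ _ := div_le_div_of_nonneg_left hc.le (pow_pos h9 3)
          (pow_le_pow_left₀ h9.le h8 3)

end

end Pool.Agent.H270.SP
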