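import Pool.Graph.R_pool_sql_team_seeded_9f66d723.W5h66.CX.G

/-!
# The determinants `det (X U + L)` of symmetrizable integer pairs with at most one negative square
-/

set_option autoImplicit false

namespace Pool.Agent.H270.SP

open Matrix Polynomial Filter Topology MeasureTheory
open Pool.Agent.W5h66.CX (pnc pnc_eval pnc_map pnc_lead pnc_natDegree pnc_ne Lor cm card_pnc
  measure_cases pos_right pos_left det_add_single toC_eq star_eval re_form star_form)
open Pool.Agent.H261R2.CM (toC ez ev1 m1 mx1 D_norm_ez D_log_m1 D_intervalIntegrable_log D_ae_ne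
  LL LL_mono)

open scoped ComplexOrder

noncomputable section

variable {n : ℕ}

/-- symmetrizable pairs of integer matrices whose form has at most one negative square -/
structure Sei (U L : Matrix (Fin n) (Fin n) ℤ) (d : Fin n → ℝ) : Prop where
  pos : ∀ i, 0 < d i
  symm : ∀ i j, d i * U i j = d j * L j i
  lor : ∃ v : Fin n → ℝ, ∀ x : Fin n → ℝ,
    0 ≤ ∑ i, ∑ j, d i * U i j * x i * x j + (∑ i, v i * x i) ^ 2

variable {U L : Matrix (Fin n) (Fin n) ℤ} {d : Fin n → ℝ}

/-- the real Seifert matrix -/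
def Wr (U : Matrix (Fin n) (Fin n) ℤ) (d : Fin n → ℝ) : Matrix (Fin n) (Fin n) ℝ :=
  diagonal d * U.map (Int.castRingHom ℝ)

theorem tr_of (hs : ∀ i j, d i * U i j = d j * L j i) :
    (Wr U d)ᵀ = diagonal d * L.map (Int.castRingHom ℝ) := by
  ext i j
  simp only [Wr, Matrix.transpose_apply, Matrix.diagonal_mul, Matrix.map_apply]
  simpa using hs j i

theorem form_eq (U : Matrix (Fin n) (Fin n) ℤ) (d x : Fin n → ℝ) :
    x ⬝ᵥ Wr U d *ᵥ x = ∑ i, ∑ j, d i * U i j * x i * x j := by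
  simp only [dotProduct, mulVec, Finset.mul_sum]
  refine Finset.sum_congr rfl fun i _ => Finset.sum_congr rfl fun j _ => ?_
  simp [Wr, Matrix.diagonal_mul]
  ring

theorem Sei.lorW (h : Sei U L d) : Lor (Wr U d) := by
  obtain ⟨v, hv⟩ := h.lor
  refine ⟨v, fun x => ?_⟩
  rw [form_eq]
  exact hv x

/-- the pencil with the diagonal perturbation `e` -/
def pol (U L : Matrix (Fin n) (Fin n) ℤ) (e : Fin n → ℤ) : ℤ[X] :=
  pnc (U + diagonal e) (L - diagonal e)

theorem W_add (U : Matrix (Fin n) (Fin n) ℤ) (d e : Fin n → ℝ) :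
    Wr U d + diagonal (fun i => e i * d i) =
      diagonal d * (U.map (Int.castRingHom ℝ) + diagonal e) := by
  unfold Wr
  rw [Matrix.mul_add, Matrix.diagonal_mul_diagonal]
  congr 2
  ext i
  ring

theorem W_sub (hs : ∀ i j, d i * U i j = d j * L j i) (e : Fin n → ℝ) :
    (Wr U d)ᵀ - diagonal (fun i => e i * d i) =
      diagonal d * (L.map (Int.castRingHom ℝ) - diagonal e) := by
  rw [tr_of hs, Matrix.mul_sub, Matrix.diagonal_mul_diagonal]
  congr 2
  ext i
  ring

theorem map_add_diag (U : Matrix (Fin n) (Fin n) ℤ) (e : Fin n → ℤ) :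
    (U + diagonal e).map (Int.castRingHom ℝ) =
      U.map (Int.castRingHom ℝ) + diagonal fun i => (e i : ℝ) := by
  ext i j
  by_cases hij : i = j
  · subst hij
    simp
  · simp [Matrix.diagonal_apply_ne _ hij]

theorem map_sub_diag (L : Matrix (Fin n) (Fin n) ℤ) (e : Fin n → ℤ) :
    (L - diagonal e).map (Int.castRingHom ℝ) =
      L.map (Int.castRingHom ℝ) - diagonal fun i => (e i : ℝ) := by
  ext i j
  by_cases hij : i = j
  · subst hij
    simp
  · simp [Matrix.diagonal_apply_ne _ hij]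

theorem pol_real (U L : Matrix (Fin n) (Fin n) ℤ) (e : Fin n → ℤ) :
    (pol U L e).map (Int.castRingHom ℝ) = pnc (U.map (Int.castRingHom ℝ) +
      diagonal fun i => (e i : ℝ)) (L.map (Int.castRingHom ℝ) - diagonal fun i => (e i : ℝ)) := by
  unfold pol
  rw [pnc_map, map_add_diag, map_sub_diag]

theorem Sei.pnc_eq (h : Sei U L d) (e : Fin n → ℝ) :
    pnc (Wr U d + diagonal fun i => e i * d i) ((Wr U d)ᵀ - diagonal fun i => e i * d i) =
      C (∏ i, d i) * pnc (U.map (Int.castRingHom ℝ) + diagonal e)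
        (L.map (Int.castRingHom ℝ) - diagonal e) := by
  refine Polynomial.funext fun t => ?_
  rw [eval_mul, eval_C, pnc_eval, pnc_eval, W_add, W_sub h.symm, ← Matrix.mul_smul,
    ← Matrix.mul_add, Matrix.det_mul, Matrix.det_diagonal]

theorem Sei.prod_pos (h : Sei U L d) : 0 < ∏ i, d i := Finset.prod_pos fun i _ => h.pos i

theorem det_real (U : Matrix (Fin n) (Fin n) ℤ) :
    (U.map (Int.castRingHom ℝ)).det = (U.det : ℝ) := by
  rw [← RingHom.mapMatrix_apply, ← RingHom.map_det]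
  rfl

/-- at most one root outside the unit circle -/
theorem Sei.card (h : Sei U L d) (e : Fin n → ℤ) (he : ∀ i, 0 ≤ e i)
    (hd : (U + diagonal e).det ≠ 0) :
    ((((pol U L e).map (Int.castRingHom ℝ)).map Complex.ofRealHom).roots.filter
      fun z => 1 < ‖z‖).card ≤ 1 := by
  have h1 := card_pnc (Wr U d) h.lorW (fun i => (e i : ℝ) * d i)
    (fun i => mul_nonneg (by exact_mod_cast he i) (h.pos i).le) (by
      rw [W_add, Matrix.det_mul, Matrix.det_diagonal, ← map_add_diag, det_real]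
      exact mul_ne_zero h.prod_pos.ne' (by exact_mod_cast hd))
  rw [h.pnc_eq, ← pol_real, Polynomial.map_mul, Polynomial.map_C, roots_C_mul] at h1
  · exact h1
  · rw [Complex.ofRealHom_eq_coe]
    exact_mod_cast h.prod_pos.ne'

theorem pol_lead (U L : Matrix (Fin n) (Fin n) ℤ) (e : Fin n → ℤ)
    (hd : (U + diagonal e).det ≠ 0) : (pol U L e).leadingCoeff = (U + diagonal e).det := by
  unfold pol
  exact pnc_lead _ _ hd

theorem pol_natDegree (U L : Matrix (Fin n) (Fin n) ℤ) (e : Fin n → ℤ)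
    (hd : (U + diagonal e).det ≠ 0) : (pol U L e).natDegree = n := by
  unfold pol
  rw [pnc_natDegree _ _ hd, Fintype.card_fin]

theorem pol_ne (U L : Matrix (Fin n) (Fin n) ℤ) (e : Fin n → ℤ)
    (hd : (U + diagonal e).det ≠ 0) : pol U L e ≠ 0 := by
  rw [← leadingCoeff_ne_zero, pol_lead U L e hd]
  exact hd

/-- the measure and the outside root -/
theorem Sei.cases (h : Sei U L d) (e : Fin n → ℤ) (he : ∀ i, 0 ≤ e i)
    (hd : (U + diagonal e).det ≠ 0) :
    ((∀ z : ℂ, 1 < ‖z‖ → (toC (pol U L e)).eval z ≠ 0) ∧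
      m1 (pol U L e) = |((U + diagonal e).det : ℝ)|) ∨
    ∃ z : ℝ, 1 < |z| ∧ ((pol U L e).map (Int.castRingHom ℝ)).eval z = 0 ∧
      (∀ w : ℂ, 1 < ‖w‖ → (toC (pol U L e)).eval w = 0 → w = z) ∧
      m1 (pol U L e) = |((U + diagonal e).det : ℝ)| * |z| := by
  have hp : (pol U L e).map (Int.castRingHom ℝ) ≠ 0 :=
    (Polynomial.map_ne_zero_iff (RingHom.injective_int _)).mpr (pol_ne U L e hd)
  have hl : |((pol U L e).map (Int.castRingHom ℝ)).leadingCoeff| =
      |((U + diagonal e).det : ℝ)| := by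
    rw [leadingCoeff_map_of_injective (RingHom.injective_int _), pol_lead U L e hd]
    rfl
  have h2 := measure_cases _ hp (h.card e he hd)
  rw [hl, ← toC_eq] at h2
  exact h2

/-- the determinant of the pencil -/
def alex (U L : Matrix (Fin n) (Fin n) ℤ) : ℤ[X] := pol U L 0

theorem alex_eq (U L : Matrix (Fin n) (Fin n) ℤ) : alex U L = pnc U L := by
  unfold alex pol
  rw [diagonal_zero', add_zero, sub_zero]

theorem Sei.cases0 (h : Sei U L d) (hd : U.det ≠ 0) :
    ((∀ z : ℂ, 1 < ‖z‖ → (toC (alex U L)).eval z ≠ 0) ∧ m1 (alex U L) = |(U.det : ℝ)|) ∨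
    ∃ z : ℝ, 1 < |z| ∧ ((alex U L).map (Int.castRingHom ℝ)).eval z = 0 ∧
      (∀ w : ℂ, 1 < ‖w‖ → (toC (alex U L)).eval w = 0 → w = z) ∧
      m1 (alex U L) = |(U.det : ℝ)| * |z| := by
  have h0 : U + diagonal (0 : Fin n → ℤ) = U := by rw [diagonal_zero', add_zero]
  have h1 := h.cases 0 (fun _ => le_rfl) (by rw [h0]; exact hd)
  rw [h0] at h1
  exact h1

theorem Sei.det_le (h : Sei U L d) (hd : U.det ≠ 0) : |(U.det : ℝ)| ≤ m1 (alex U L) := by
  rcases h.cases0 hd with ⟨_, h1⟩ | ⟨z, hz, _, _, h1⟩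
  · exact h1.ge
  · rw [h1]
    exact le_mul_of_one_le_right (abs_nonneg _) hz.le

theorem one_le_abs {a : ℤ} (ha : a ≠ 0) : (1 : ℝ) ≤ |(a : ℝ)| := by
  exact_mod_cast Int.one_le_abs ha

/-- real roots outside are the measure -/
theorem Sei.root_abs (h : Sei U L d) (hd : U.det ≠ 0) (z : ℝ) (hz : 1 < |z|)
    (h0 : ((alex U L).map (Int.castRingHom ℝ)).eval z = 0) :
    m1 (alex U L) = |(U.det : ℝ)| * |z| := by
  have h0C : (toC (alex U L)).eval (z : ℂ) = 0 := by
    rw [toC_eq, eval_map, ← Complex.ofRealHom_eq_coe z, eval₂_at_apply, h0, map_zero]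
  have hzn : 1 < ‖(z : ℂ)‖ := by rwa [Complex.norm_real, Real.norm_eq_abs]
  rcases h.cases0 hd with ⟨h1, _⟩ | ⟨w, _, _, h1, h2⟩
  · exact absurd h0C (h1 _ hzn)
  · have h3 := h1 _ hzn h0C
    have h4 : z = w := by exact_mod_cast h3
    rw [h2, h4]

theorem alex_ne (U L : Matrix (Fin n) (Fin n) ℤ) (hd : U.det ≠ 0) : alex U L ≠ 0 := by
  rw [alex_eq]
  exact pnc_ne _ _ hd

theorem alex_lead (U L : Matrix (Fin n) (Fin n) ℤ) (hd : U.det ≠ 0) :
    ((alex U L).map (Int.castRingHom ℝ)).leadingCoeff = (U.det : ℝ) := by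
  rw [leadingCoeff_map_of_injective (RingHom.injective_int _), alex_eq, pnc_lead _ _ hd]
  rfl

theorem alex_deg (U L : Matrix (Fin n) (Fin n) ℤ) (hd : U.det ≠ 0) :
    ((alex U L).map (Int.castRingHom ℝ)).natDegree = n := by
  rw [natDegree_map_eq_of_injective (RingHom.injective_int _), alex_eq, pnc_natDegree _ _ hd,
    Fintype.card_fin]

/-- `s` is the sign of the determinant -/
theorem Sei.pos_at (h : Sei U L d) (s : ℝ) (hs : 0 < s * U.det) (z : ℝ) (hz1 : 1 < z)
    (hz : m1 (alex U L) < |(U.det : ℝ)| * z) :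
    0 < s * ((alex U L).map (Int.castRingHom ℝ)).eval z := by
  have hs0 : s ≠ 0 := by
    rintro rfl
    simp at hs
  have hd : U.det ≠ 0 := by
    rintro h0
    rw [h0] at hs
    simp at hs
  have hda : 0 < |(U.det : ℝ)| := lt_of_lt_of_le one_pos (one_le_abs hd)
  have h1 := pos_right (C s * (alex U L).map (Int.castRingHom ℝ)) (by
    rw [leadingCoeff_mul, leadingCoeff_C, alex_lead U L hd]
    exact hs) z (fun t ht h0 => by
      rw [eval_mul, eval_C] at h0
      have h2 := (mul_eq_zero.mp h0).resolve_left hs0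
      have h3 : |t| = t := abs_of_pos (by linarith)
      have h4 := h.root_abs hd t (by rw [h3]; linarith) h2
      rw [h3] at h4
      have h5 := mul_le_mul_of_nonneg_left ht hda.le
      linarith)
  rwa [eval_mul, eval_C] at h1

theorem Sei.neg_at (h : Sei U L d) (s : ℝ) (hs : 0 < s * U.det) (z : ℝ) (hz1 : z < -1)
    (hz : m1 (alex U L) < |(U.det : ℝ)| * (-z)) :
    0 < (-1) ^ n * (s * ((alex U L).map (Int.castRingHom ℝ)).eval z) := by
  have hs0 : s ≠ 0 := by
    rintro rfl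
    simp at hs
  have hd : U.det ≠ 0 := by
    rintro h0
    rw [h0] at hs
    simp at hs
  have hda : 0 < |(U.det : ℝ)| := lt_of_lt_of_le one_pos (one_le_abs hd)
  have h1 := pos_left (C s * (alex U L).map (Int.castRingHom ℝ)) (by
    rw [leadingCoeff_mul, leadingCoeff_C, alex_lead U L hd]
    exact hs) z (fun t ht h0 => by
      rw [eval_mul, eval_C] at h0
      have h2 := (mul_eq_zero.mp h0).resolve_left hs0
      have h3 : |t| = -t := abs_of_neg (by linarith)
      have h4 := h.root_abs hd t (by rw [h3]; linarith) h2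
      rw [h3] at h4
      have h5 := mul_le_mul_of_nonneg_left (neg_le_neg ht) hda.le
      linarith)
  rwa [natDegree_C_mul hs0, alex_deg U L hd, eval_mul, eval_C] at h1

/-- deletion of an index -/
def del (U : Matrix (Fin (n + 1)) (Fin (n + 1)) ℤ) (i : Fin (n + 1)) :
    Matrix (Fin n) (Fin n) ℤ := U.submatrix i.succAbove i.succAbove

theorem Sei.del {U L : Matrix (Fin (n + 1)) (Fin (n + 1)) ℤ} {d : Fin (n + 1) → ℝ}
    (h : Sei U L d) (i : Fin (n + 1)) :
    Sei (SP.del U i) (SP.del L i) (fun a => d (i.succAbove a)) where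
  pos a := h.pos _
  symm a b := h.symm _ _
  lor := by
    obtain ⟨v, hv⟩ := h.lor
    refine ⟨fun a => v (i.succAbove a), fun x => ?_⟩
    have h1 := hv (i.insertNth 0 x)
    rw [Fin.sum_univ_succAbove _ i] at h1
    simp only [Fin.insertNth_apply_same, mul_zero, zero_mul, Finset.sum_const_zero, zero_add]
      at h1
    have h2 : ∑ a, v a * (i.insertNth 0 x : Fin (n + 1) → ℝ) a = ∑ a, v (i.succAbove a) * x a := by
      rw [Fin.sum_univ_succAbove _ i]
      simp
    rw [h2] at h1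
    refine h1.trans (le_of_eq ?_)
    congr 1
    refine Finset.sum_congr rfl fun a _ => ?_
    rw [Fin.sum_univ_succAbove _ i]
    simp [SP.del]

theorem pol_single (U L : Matrix (Fin (n + 1)) (Fin (n + 1)) ℤ) (i : Fin (n + 1)) :
    pol U L (Pi.single i 1) = alex U L + (X - 1) * alex (SP.del U i) (SP.del L i) := by
  have h1 : ((X : ℤ[X]) • (U + diagonal (Pi.single i 1)).map C +
      (L - diagonal (Pi.single i 1)).map C) = ((X : ℤ[X]) • U.map C +
      L.map C) + diagonal (Pi.single i (X - 1)) := by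
    ext1 a b
    by_cases hab : a = b
    · subst hab
      by_cases ha : a = i
      · subst ha
        simp
        ring
      · simp [Pi.single_eq_of_ne ha]
    · simp [Matrix.diagonal_apply_ne _ hab]
  rw [alex_eq, alex_eq]
  unfold pol pnc
  rw [h1, det_add_single]
  congr 3

theorem det_single (U : Matrix (Fin (n + 1)) (Fin (n + 1)) ℤ) (i : Fin (n + 1)) :
    (U + diagonal (Pi.single i 1)).det = U.det + (SP.del U i).det := by
  rw [det_add_single, one_mul]
  rfl

theorem single_nonneg (i : Fin (n + 1)) (a : Fin (n + 1)) :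
    0 ≤ (Pi.single i 1 : Fin (n + 1) → ℤ) a := by
  by_cases ha : a = i
  · subst ha; simp
  · simp [Pi.single_eq_of_ne ha]

theorem same_sign {a b : ℤ} (hab : 0 < a * b) : |((a + b : ℤ) : ℝ)| = |(a : ℝ)| + |(b : ℝ)| := by
  push_cast
  rcases pos_and_pos_or_neg_and_neg_of_mul_pos hab with ⟨h1, h2⟩ | ⟨h1, h2⟩
  · have h1' : (0:ℝ) < a := by exact_mod_cast h1
    have h2' : (0:ℝ) < b := by exact_mod_cast h2
    rw [abs_of_pos h1', abs_of_pos h2', abs_of_pos (by linarith)]
  · have h1' : (a:ℝ) < 0 := by exact_mod_cast h1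
    have h2' : (b:ℝ) < 0 := by exact_mod_cast h2
    rw [abs_of_neg h1', abs_of_neg h2', abs_of_neg (by linarith)]
    ring

theorem same_sign_ne {a b : ℤ} (hab : 0 < a * b) : a + b ≠ 0 := by
  intro h
  have h1 : b = -a := by omega
  rw [h1] at hab
  nlinarith [mul_self_nonneg a]

/-- **The measure of the auxiliary polynomial.** -/
theorem Sei.aux {U L : Matrix (Fin (n + 1)) (Fin (n + 1)) ℤ} {d : Fin (n + 1) → ℝ}
    (h : Sei U L d) (i : Fin (n + 1)) (hab : 0 < U.det * (SP.del U i).det) :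
    m1 (alex U L + (X - 1) * alex (SP.del U i) (SP.del L i)) ≤
      2 * (m1 (alex U L) * m1 (alex (SP.del U i) (SP.del L i))) := by
  have ha0 : U.det ≠ 0 := left_ne_zero_of_mul hab.ne'
  have hb0 : (SP.del U i).det ≠ 0 := right_ne_zero_of_mul hab.ne'
  have hdel := h.del i
  have ha1 := one_le_abs ha0
  have hb1 := one_le_abs hb0
  have hF := h.det_le ha0
  have hG := hdel.det_le hb0
  set a := |(U.det : ℝ)|
  set b := |((SP.del U i).det : ℝ)|
  set F := m1 (alex U L)
  set G := m1 (alex (SP.del U i) (SP.del L i))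
  have hne : (U + diagonal (Pi.single i 1)).det ≠ 0 := by
    rw [det_single]
    exact same_sign_ne hab
  have habs : |((U + diagonal (Pi.single i 1)).det : ℝ)| = a + b := by
    rw [det_single]
    exact same_sign hab
  rw [← pol_single]
  rcases h.cases (Pi.single i 1) (single_nonneg i) hne with ⟨_, h1⟩ | ⟨z, hz, hz0, _, h1⟩
  · rw [h1, habs]
    nlinarith
  · rw [h1, habs]
    have key : a * |z| ≤ F ∨ b * |z| ≤ G := by
      by_contra hcon
      push Not at hcon
      obtain ⟨h2, h3⟩ := hcon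
      rw [pol_single, Polynomial.map_add, Polynomial.map_mul, eval_add, eval_mul] at hz0
      simp only [Polynomial.map_sub, Polynomial.map_X, Polynomial.map_one, eval_sub, eval_X,
        eval_one] at hz0
      obtain ⟨s, hs1, hs2⟩ : ∃ s : ℝ, 0 < s * U.det ∧ 0 < s * (SP.del U i).det := by
        refine ⟨U.det, ?_, by exact_mod_cast hab⟩
        have : (U.det : ℝ) ≠ 0 := by exact_mod_cast ha0
        exact mul_self_pos.mpr this
      rcases lt_or_ge 0 z with hz1 | hz1
      · rw [abs_of_pos hz1] at h2 h3 hz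
        have h4 := h.pos_at s hs1 z hz h2
        have h5 := hdel.pos_at s hs2 z hz h3
        have h6 := mul_pos (sub_pos.mpr hz) h5
        have h7 : s * (((alex U L).map (Int.castRingHom ℝ)).eval z +
            (z - 1) * ((alex (SP.del U i) (SP.del L i)).map (Int.castRingHom ℝ)).eval z) = 0 := by
          rw [hz0, mul_zero]
        nlinarith
      · rw [abs_of_nonpos hz1] at h2 h3 hz
        have h4 := h.neg_at s hs1 z (by linarith) h2
        have h5 := hdel.neg_at s hs2 z (by linarith) h3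
        have h6 := mul_pos (show 0 < 1 - z by linarith) h5
        have h7 : (-1 : ℝ) ^ (n + 1) * (s * (((alex U L).map (Int.castRingHom ℝ)).eval z +
            (z - 1) * ((alex (SP.del U i) (SP.del L i)).map (Int.castRingHom ℝ)).eval z)) =
            (-1) ^ (n + 1) * (s * ((alex U L).map (Int.castRingHom ℝ)).eval z) +
            (1 - z) * ((-1) ^ n * (s * ((alex (SP.del U i) (SP.del L i)).map
              (Int.castRingHom ℝ)).eval z)) := by
          rw [pow_succ]
          ring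
        rw [hz0, mul_zero, mul_zero] at h7
        linarith
    have hz0' : 0 < |z| := by linarith
    have hF1 : 1 ≤ F := ha1.trans hF
    have hG1 : 1 ≤ G := hb1.trans hG
    rcases key with h2 | h2
    · -- `|z| ≤ F`
      have h3 : |z| ≤ F := le_trans (by nlinarith) h2
      have h4 : b * |z| ≤ G * F := mul_le_mul hG h3 hz0'.le (by linarith)
      nlinarith
    · have h3 : |z| ≤ G := le_trans (by nlinarith) h2
      have h4 : a * |z| ≤ F * G := mul_le_mul hF h3 hz0'.le (by linarith)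
      nlinarith

/-! ### the unit circle -/

theorem alex_eval (U L : Matrix (Fin n) (Fin n) ℤ) (z : ℂ) : (toC (alex U L)).eval z =
    (z • U.map (Int.castRingHom ℂ) + L.map (Int.castRingHom ℂ)).det := by
  rw [alex_eq]
  unfold toC
  rw [pnc_map, pnc_eval]

theorem cm_U (U : Matrix (Fin n) (Fin n) ℤ) (d : Fin n → ℝ) :
    cm (Wr U d) = diagonal (fun i => (d i : ℂ)) * U.map (Int.castRingHom ℂ) := by
  ext i j
  simp [cm, Wr, Matrix.diagonal_mul]

theorem cm_L (hs : ∀ i j, d i * U i j = d j * L j i) :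
    (cm (Wr U d))ᵀ = diagonal (fun i => (d i : ℂ)) * L.map (Int.castRingHom ℂ) := by
  have h1 : (cm (Wr U d))ᵀ = cm ((Wr U d)ᵀ) := by
    unfold cm
    rw [Matrix.transpose_map]
  rw [h1, tr_of hs]
  ext i j
  simp [cm, Matrix.diagonal_mul]

theorem det_D (hp : ∀ i, 0 < d i) : (diagonal fun i => (d i : ℂ)).det ≠ 0 := by
  rw [det_diagonal]
  exact Finset.prod_ne_zero_iff.mpr fun i _ => by exact_mod_cast (hp i).ne'

/-- the pencil is symmetric -/
theorem det_swap (hp : ∀ i, 0 < d i) (hs : ∀ i j, d i * U i j = d j * L j i) (z : ℂ) :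
    (U.map (Int.castRingHom ℂ) + z • L.map (Int.castRingHom ℂ)).det =
      (z • U.map (Int.castRingHom ℂ) + L.map (Int.castRingHom ℂ)).det := by
  refine mul_left_cancel₀ (det_D hp) ?_
  rw [← Matrix.det_mul, ← Matrix.det_mul, Matrix.mul_add, Matrix.mul_add, Matrix.mul_smul,
    Matrix.mul_smul, ← cm_U, ← cm_L hs, ← Matrix.det_transpose, transpose_add,
    transpose_smul, transpose_transpose, add_comm]

theorem recip (hp : ∀ i, 0 < d i) (hs : ∀ i j, d i * U i j = d j * L j i) (z : ℂ)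
    (hz : z ≠ 0) :
    (toC (alex U L)).eval z⁻¹ = (z⁻¹) ^ n * (toC (alex U L)).eval z := by
  rw [alex_eval, alex_eval, ← det_swap hp hs z]
  have h1 : z⁻¹ • U.map (Int.castRingHom ℂ) + L.map (Int.castRingHom ℂ) =
      z⁻¹ • (U.map (Int.castRingHom ℂ) + z • L.map (Int.castRingHom ℂ)) := by
    rw [smul_add, smul_smul, inv_mul_cancel₀ hz, one_smul]
  rw [h1, Matrix.det_smul, Fintype.card_fin]

theorem star_alex (hp : ∀ i, 0 < d i) (hs : ∀ i j, d i * U i j = d j * L j i) (z : ℂ)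
    (hz : ‖z‖ = 1) :
    star ((toC (alex U L)).eval z) = (z⁻¹) ^ n * (toC (alex U L)).eval z := by
  have hz0 : z ≠ 0 := by
    rintro rfl
    rw [norm_zero] at hz
    exact zero_ne_one hz
  have h1 : star z = z⁻¹ := by
    rw [Complex.star_def, Complex.inv_def, Complex.normSq_eq_norm_sq, hz]
    simp
  rw [star_eval, h1, recip hp hs z hz0]

theorem eval_X1 (P : ℤ[X]) (z : ℂ) :
    (toC ((X - 1) * P)).eval z = (z - 1) * (toC P).eval z := by
  unfold toC
  rw [Polynomial.map_mul, eval_mul]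
  simp

theorem eval_add' (P Q : ℤ[X]) (z : ℂ) :
    (toC (P + Q)).eval z = (toC P).eval z + (toC Q).eval z := by
  unfold toC
  rw [Polynomial.map_add, eval_add]

/-- **The identity.** -/
theorem circle {U L : Matrix (Fin (n + 1)) (Fin (n + 1)) ℤ} {d : Fin (n + 1) → ℝ}
    (hp : ∀ i, 0 < d i) (hs : ∀ i j, d i * U i j = d j * L j i) (i : Fin (n + 1)) (z : ℂ)
    (hz : ‖z‖ = 1) :
    ‖(toC (alex U L + (X - 1) * alex (SP.del U i) (SP.del L i))).eval z‖ ^ 2 =
      ‖(toC (alex U L)).eval z‖ ^ 2 +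
        ‖(toC ((X - 1) * alex (SP.del U i) (SP.del L i))).eval z‖ ^ 2 := by
  have hz0 : z ≠ 0 := by
    rintro rfl
    rw [norm_zero] at hz
    exact zero_ne_one hz
  have hsz : star z = z⁻¹ := by
    rw [Complex.star_def, Complex.inv_def, Complex.normSq_eq_norm_sq, hz]
    simp
  have ha := star_alex hp hs z hz
  have hb := star_alex (U := SP.del U i) (L := SP.del L i) (d := fun a => d (i.succAbove a))
    (fun _ => hp _) (fun _ _ => hs _ _) z hz
  rw [eval_add', eval_X1]
  set a := (toC (alex U L)).eval z with hadef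
  set b := (toC (alex (SP.del U i) (SP.del L i))).eval z with hbdef
  have key : ∀ w : ℂ, ((‖w‖ ^ 2 : ℝ) : ℂ) = star w * w := by
    intro w
    rw [← Complex.normSq_eq_norm_sq, Complex.normSq_eq_conj_mul_self]
    rfl
  have h3 : ((‖a + (z - 1) * b‖ ^ 2 : ℝ) : ℂ) = ((‖a‖ ^ 2 + ‖(z - 1) * b‖ ^ 2 : ℝ) : ℂ) := by
    rw [Complex.ofReal_add, key, key, key, star_add, star_mul, star_sub, star_one, hsz, ha, hb]
    have h4 : z⁻¹ * z = 1 := inv_mul_cancel₀ hz0
    have h5 : (z⁻¹) ^ (n + 1) = (z⁻¹) ^ n * z⁻¹ := pow_succ _ _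
    rw [h5]
    linear_combination (z⁻¹) ^ n * a * b * h4
  exact_mod_cast h3

/-- the inequality for the pair -/
theorem Sei.pair {U L : Matrix (Fin (n + 1)) (Fin (n + 1)) ℤ} {d : Fin (n + 1) → ℝ}
    (h : Sei U L d) (i : Fin (n + 1)) (hab : 0 < U.det * (SP.del U i).det) :
    mx1 (alex U L) ((X - 1) * alex (SP.del U i) (SP.del L i)) ≤
      Real.log (2 * (m1 (alex U L) * m1 (alex (SP.del U i) (SP.del L i)))) := by
  have ha0 : U.det ≠ 0 := left_ne_zero_of_mul hab.ne'
  have hF0 := alex_ne U L ha0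
  set P := alex U L + (X - 1) * alex (SP.del U i) (SP.del L i) with hP
  have hP0 : P ≠ 0 := by
    rw [hP, ← pol_single]
    refine pol_ne _ _ _ ?_
    rw [det_single]
    exact same_sign_ne hab
  have h2 : 0 < m1 P := lt_of_lt_of_le one_pos (Pool.Agent.Y820.LB.one_le_m1 hP0)
  refine le_trans ?_ (Real.log_le_log h2 (h.aux i hab))
  rw [D_log_m1]
  refine intervalIntegral.integral_mono_ae zero_le_one
    (Pool.Agent.H261R2.CM.mx1_intervalIntegrable _ _ hF0)
    (D_intervalIntegrable_log P) ?_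
  filter_upwards [D_ae_ne (alex U L) hF0] with t h1
  have h3 := circle h.pos h.symm i (ez t) (Pool.Agent.H261R2.CM.D_norm_ez t)
  change ‖ev1 P t‖ ^ 2 = ‖ev1 (alex U L) t‖ ^ 2 +
    ‖ev1 ((X - 1) * alex (SP.del U i) (SP.del L i)) t‖ ^ 2 at h3
  have h4 : 0 < ‖ev1 (alex U L) t‖ := norm_pos_iff.mpr h1
  refine Real.log_le_log (lt_max_of_lt_left h4) (max_le ?_ ?_)
  · exact abs_le_of_sq_le_sq'
      (by nlinarith [sq_nonneg ‖ev1 ((X - 1) * alex (SP.del U i) (SP.del L i)) t‖])
      (norm_nonneg _) |>.2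
  · exact abs_le_of_sq_le_sq' (by nlinarith [sq_nonneg ‖ev1 (alex U L) t‖])
      (norm_nonneg _) |>.2

/-- the measure of a polynomial without zeros outside of the disc -/
theorem m1_no_root (D : ℤ[X]) (hD0 : D ≠ 0)
    (h : ∀ z : ℂ, 1 < ‖z‖ → (toC D).eval z ≠ 0) : m1 D = ((D.leadingCoeff.natAbs : ℕ) : ℝ) := by
  have h0 : toC D ≠ 0 := Pool.Agent.H261R2.CM.D_toC_ne D hD0
  have h2 : ((toC D).roots.map fun a => max 1 ‖a‖) = (toC D).roots.map fun _ => (1 : ℝ) := by
    refine Multiset.map_congr rfl fun z hz => ?_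
    refine max_eq_left ?_
    by_contra hcon
    push Not at hcon
    exact h z hcon ((mem_roots h0).mp hz)
  unfold m1
  rw [mahlerMeasure_eq_leadingCoeff_mul_prod_roots, h2]
  have h4 : (toC D).leadingCoeff = ((D.leadingCoeff : ℤ) : ℂ) := by
    unfold toC
    rw [leadingCoeff_map_of_injective (RingHom.injective_int _)]
    rfl
  rw [h4, Complex.norm_intCast, ← Int.cast_abs, Int.abs_eq_natAbs]
  simp

theorem pair_mem (F Q : ℤ[X]) (hF : F ≠ 0) (hQ : Q ≠ 0)
    (hcop : ∀ z : ℂ, 1 < ‖z‖ → (toC F).eval z = 0 → (toC Q).eval z ≠ 0) :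
    m1 F ∈ LL (mx1 F Q) := by
  obtain ⟨A, B, D, hAB, hA, hB⟩ :=
    UniqueFactorizationMonoid.exists_reduced_factors F hF Q
  have hd0 : D ≠ 0 := by
    rintro rfl
    exact hF (by rw [← hA, zero_mul])
  have hA0 : A ≠ 0 := by
    rintro rfl
    exact hF (by rw [← hA, mul_zero])
  have hB0 : B ≠ 0 := by
    rintro rfl
    exact hQ (by rw [← hB, mul_zero])
  have hm : m1 D = ((D.leadingCoeff.natAbs : ℕ) : ℝ) := by
    refine m1_no_root D hd0 fun z h9 h10 => hcop z h9 ?_ ?_
    · rw [← hA, Pool.Agent.Y820.LB.toC_mul, eval_mul, h10, zero_mul]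
    · rw [← hB, Pool.Agent.Y820.LB.toC_mul, eval_mul, h10, zero_mul]
  have hN : 1 ≤ D.leadingCoeff.natAbs :=
    Nat.one_le_iff_ne_zero.mpr (Int.natAbs_ne_zero.mpr (leadingCoeff_ne_zero.mpr hd0))
  have h1 := Pool.Agent.TH845.KN.nat_mem_LL _ hN _ le_rfl
  have h2 := Pool.Agent.W242.IM.m1_mem_LL A B hA0 hB0 hAB _ le_rfl
  have h3 := Pool.Agent.TH845.KN.LL_mul h1 h2
  rw [← hm, ← Pool.Agent.H261R2.CM.mx1_mul D A B hd0 hA0, hA, hB,
    ← Pool.Agent.Y820.LB.m1_mul, hA] at h3
  exact h3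

/-- **The bounded companion.** -/
theorem Sei.mem {U L : Matrix (Fin (n + 1)) (Fin (n + 1)) ℤ} {d : Fin (n + 1) → ℝ}
    (h : Sei U L d) (i : Fin (n + 1)) (hab : 0 < U.det * (SP.del U i).det)
    (hcop : ∀ z : ℂ, 1 < ‖z‖ → (toC (alex U L)).eval z = 0 →
      (toC (alex (SP.del U i) (SP.del L i))).eval z ≠ 0) :
    m1 (alex U L) ∈
      LL (Real.log (2 * (m1 (alex U L) * m1 (alex (SP.del U i) (SP.del L i))))) := by
  have ha0 : U.det ≠ 0 := left_ne_zero_of_mul hab.ne'
  have hb0 : (SP.del U i).det ≠ 0 := right_ne_zero_of_mul hab.ne'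
  refine LL_mono (h.pair i hab) (pair_mem _ _ (alex_ne U L ha0) ?_ fun z hz h0 => ?_)
  · refine mul_ne_zero ?_ (alex_ne _ _ hb0)
    exact X_sub_C_ne_zero (1 : ℤ)
  · rw [eval_X1]
    refine mul_ne_zero ?_ (hcop z hz h0)
    intro h1
    rw [sub_eq_zero.mp h1, norm_one] at hz
    exact lt_irrefl _ hz

/-! ### semidefinite forms -/

theorem semidef (hp : ∀ i, 0 < d i) (hs : ∀ i j, d i * U i j = d j * L j i)
    (hpsd : ∀ x : Fin n → ℝ, 0 ≤ ∑ i, ∑ j, d i * U i j * x i * x j) (hd : U.det ≠ 0)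
    (z : ℂ) (hz : 1 < ‖z‖) : (toC (alex U L)).eval z ≠ 0 := by
  intro h0
  rw [alex_eval] at h0
  set W := cm (Wr U d) with hW
  have h1 : (z • W + Wᵀ).det = 0 := by
    rw [hW, cm_L hs, cm_U, ← Matrix.mul_smul, ← Matrix.mul_add, Matrix.det_mul, h0, mul_zero]
  have hWdet : W.det ≠ 0 := by
    rw [hW, cm_U, Matrix.det_mul]
    refine mul_ne_zero (det_D hp) ?_
    rw [← RingHom.mapMatrix_apply, ← RingHom.map_det]
    simpa using hd
  have hWs : Wᴴ = Wᵀ := by
    rw [hW]
    ext i j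
    simp [cm]
  obtain ⟨x, hx0, hx⟩ := Matrix.exists_mulVec_eq_zero_iff.mpr h1
  set v := star x ⬝ᵥ W *ᵥ x with hv
  have h2 : z * v + star v = 0 := by
    have h3 : star x ⬝ᵥ (z • W + Wᵀ) *ᵥ x = 0 := by rw [hx, dotProduct_zero]
    rw [add_mulVec, dotProduct_add, smul_mulVec, dotProduct_smul, ← hWs, star_form,
      smul_eq_mul] at h3
    exact h3
  have hv0 : v = 0 := by
    by_contra hne
    have h3 : ‖z‖ * ‖v‖ = ‖v‖ := by
      rw [← norm_mul, eq_neg_of_add_eq_zero_left h2, norm_neg, norm_star]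
    have h4 : 0 < ‖v‖ := norm_pos_iff.mpr hne
    nlinarith
  have hre : ∀ y : Fin n → ℂ, 0 ≤ (star y ⬝ᵥ W *ᵥ y).re := by
    intro y
    rw [hW, re_form, form_eq, form_eq]
    exact add_nonneg (hpsd _) (hpsd _)
  have hS : (W + Wᴴ).PosSemidef := by
    refine Matrix.PosSemidef.of_dotProduct_mulVec_nonneg ?_ fun y => ?_
    · rw [Matrix.IsHermitian, conjTranspose_add, conjTranspose_conjTranspose, add_comm]
    · rw [add_mulVec, dotProduct_add, star_form]
      rw [Complex.le_def]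
      constructor
      · simp only [Complex.zero_re, Complex.add_re, Complex.star_def, Complex.conj_re]
        linarith [hre y]
      · simp
  have hSx : (W + Wᴴ) *ᵥ x = 0 := by
    rw [← hS.dotProduct_mulVec_zero_iff, add_mulVec, dotProduct_add, star_form, ← hv, hv0]
    simp
  have h5 : (z - 1) • (W *ᵥ x) = 0 := by
    have h6 : (z • W + Wᵀ) *ᵥ x = (z - 1) • (W *ᵥ x) + (W + Wᴴ) *ᵥ x := by
      rw [hWs, add_mulVec, add_mulVec, smul_mulVec, sub_smul, one_smul]
      abel
    rw [hx, hSx, add_zero] at h6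
    exact h6.symm
  have h7 : z - 1 ≠ 0 := by
    intro h8
    rw [sub_eq_zero.mp h8, norm_one] at hz
    exact lt_irrefl _ hz
  have h9 : W *ᵥ x = 0 := (smul_eq_zero.mp h5).resolve_left h7
  exact hWdet (Matrix.exists_mulVec_eq_zero_iff.mp ⟨x, hx0, h9⟩)

theorem semidef_m1 (hp : ∀ i, 0 < d i) (hs : ∀ i j, d i * U i j = d j * L j i)
    (hpsd : ∀ x : Fin n → ℝ, 0 ≤ ∑ i, ∑ j, d i * U i j * x i * x j) (hd : U.det ≠ 0) :
    m1 (alex U L) = |(U.det : ℝ)| := by
  rw [m1_no_root _ (alex_ne U L hd) (semidef hp hs hpsd hd), alex_eq, pnc_lead _ _ hd,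
    Nat.cast_natAbs, Int.cast_abs]

end

end Pool.Agent.H270.SP
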