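import Pool.Agent.H270.SP.Leh

/-!
# Reciprocal and antireciprocal polynomials
-/

set_option autoImplicit false

namespace Pool.Agent.H270.SP

open Matrix Polynomial Filter Topology MeasureTheory
open Pool.Agent.W5h66.CX (star_eval)
open Pool.Agent.H261R2.CM (toC ez ev1 m1 mx1)

noncomputable section

theorem reflect_eval (N : ℕ) (F : ℤ[X]) (hF : F.natDegree ≤ N) (z : ℂ) (hz : ‖z‖ = 1) :
    (toC (F.reflect N)).eval z = z ^ N * star ((toC F).eval z) := by
  have hz0 : z ≠ 0 := by
    rintro rfl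
    rw [norm_zero] at hz
    exact zero_ne_one hz
  have hs : star z = z⁻¹ := by
    rw [Complex.star_def, Complex.inv_def, Complex.normSq_eq_norm_sq, hz]
    simp
  rw [star_eval, hs]
  have hzi : z⁻¹ ≠ 0 := inv_ne_zero hz0
  let _ : Invertible (z⁻¹) := invertibleOfNonzero hzi
  have h1 := Polynomial.eval₂_reflect_mul_pow (Int.castRingHom ℂ) (z⁻¹) N F hF
  have h2 : ⅟(z⁻¹) = z := by
    rw [invOf_eq_inv, inv_inv]
  rw [h2] at h1
  unfold toC
  rw [eval_map, eval_map, ← h1, inv_pow, mul_comm, mul_assoc, inv_mul_cancel₀ (pow_ne_zero N hz0),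
    mul_one]

/-- reciprocal plus antireciprocal -/
theorem rec_circle (N : ℕ) (F H : ℤ[X]) (hF : F.natDegree ≤ N) (hH : H.natDegree ≤ N)
    (h1 : F.reflect N = F) (h2 : H.reflect N = -H) (z : ℂ) (hz : ‖z‖ = 1) :
    ‖(toC (F + H)).eval z‖ ^ 2 = ‖(toC F).eval z‖ ^ 2 + ‖(toC H).eval z‖ ^ 2 := by
  have hz0 : z ≠ 0 := by
    rintro rfl
    rw [norm_zero] at hz
    exact zero_ne_one hz
  have ha := reflect_eval N F hF z hz
  have hb := reflect_eval N H hH z hz
  rw [h1] at ha
  rw [h2] at hb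
  have hb' : -(toC H).eval z = z ^ N * star ((toC H).eval z) := by
    rw [← hb]
    unfold toC
    rw [Polynomial.map_neg, eval_neg]
  rw [eval_add']
  set a := (toC F).eval z
  set b := (toC H).eval z
  have key : ∀ w : ℂ, ((‖w‖ ^ 2 : ℝ) : ℂ) = star w * w := by
    intro w
    rw [← Complex.normSq_eq_norm_sq, Complex.normSq_eq_conj_mul_self]
    rfl
  have hz1 : z ^ N ≠ 0 := pow_ne_zero N hz0
  have h3 : ((‖a + b‖ ^ 2 : ℝ) : ℂ) = ((‖a‖ ^ 2 + ‖b‖ ^ 2 : ℝ) : ℂ) := by
    rw [Complex.ofReal_add, key, key, key, star_add]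
    have h4 : star a * b + star b * a = 0 := by
      refine mul_left_cancel₀ hz1 ?_
      rw [mul_zero, mul_add, ← mul_assoc, ← mul_assoc, ← ha, ← hb']
      ring
    linear_combination h4
  exact_mod_cast h3

/-- **The general bound.** -/
theorem leh_gen (hI : S_int) (hJ : S_J) : ∃ c : ℝ, 0 < c ∧ ∀ (k : ℕ) (F H : ℤ[X]),
    Irreducible F → H ≠ 0 → H.natDegree ≤ F.natDegree → ¬ F ∣ H →
    F.natDegree ≤ (F + H).natDegree →
    (∀ z : ℂ, ‖z‖ = 1 → ‖(toC F).eval z‖ ≤ ‖(toC (F + H)).eval z‖) →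
    (∀ z : ℂ, ‖z‖ = 1 → ‖(toC H).eval z‖ ≤ ‖(toC (F + H)).eval z‖) →
    ((toC (F + H)).roots.filter fun z => 1 < ‖z‖).card ≤ k → 1 < m1 F →
    c / (1 + k * Real.log (k + 2) + Real.log (m1 H)) ^ 3 ≤ Real.log (m1 F) := by
  obtain ⟨c, hc, h⟩ := Pool.Agent.Results.MP_7ab245_nt.CoprimePairs.result
  have hl2 : 0 < Real.log 2 := Real.log_pos (by norm_num)
  refine ⟨min (c / 24 ^ 3) (Real.log 2), lt_min (by positivity) hl2, ?_⟩
  intro k F H hirr hH0 hdeg hnd hdegP hzF hzH hout hM
  have hF : F ≠ 0 := hirr.ne_zero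
  have hG1 := Pool.Agent.Y820.LB.one_le_m1 hH0
  set g := Real.log (m1 H) with hg
  have hg0 : 0 ≤ g := Real.log_nonneg hG1
  have hk0 : (0 : ℝ) ≤ k := Nat.cast_nonneg k
  have hlk : 0 ≤ Real.log ((k : ℝ) + 2) := Real.log_nonneg (by linarith)
  set x := 1 + (k : ℝ) * Real.log (k + 2) + g with hx
  have hx1 : 1 ≤ x := by
    have := mul_nonneg hk0 hlk
    linarith
  rcases le_or_gt 2 (m1 F) with h2 | h2
  · have h3 : Real.log 2 ≤ Real.log (m1 F) := Real.log_le_log (by norm_num) h2
    refine le_trans ?_ h3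
    have h4 : 1 ≤ x ^ 3 := one_le_pow₀ hx1
    refine (div_le_self (le_min (by positivity) hl2.le) h4).trans (min_le_right _ _)
  · have hN0 : 0 < F.natDegree := by
      rw [Nat.pos_iff_ne_zero]
      intro h0
      obtain ⟨r, hr⟩ : ∃ r : ℤ, F = C r := ⟨_, eq_C_of_natDegree_eq_zero h0⟩
      have h5 : m1 F = ‖(r : ℂ)‖ := by
        rw [hr]
        unfold m1 toC
        rw [Polynomial.map_C, Polynomial.mahlerMeasure_const]
        rfl
      rw [h5, Complex.norm_intCast] at hM h2
      have h6 : (1 : ℤ) < |r| := by exact_mod_cast hM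
      have h7 : |r| < (2 : ℤ) := by exact_mod_cast h2
      omega
    have hP0 : F + H ≠ 0 := by
      intro h0
      rw [h0, natDegree_zero] at hdegP
      omega
    have h3 := h F H 1 one_pos hirr hnd hM
    rw [pairMean_eq] at h3
    have hbd : 0 < bd k := by linarith [bd_pos k]
    have hcmp : m1 (F + H) ≤ ((1 + 1) * bd k ^ k) ^ 3 * max (m1 F) (m1 H) := by
      refine cmpK hI hJ k (toC (F + H)) (toC F) (toC H) 1 (by norm_num)
        (Pool.Agent.H261R2.CM.D_toC_ne _ hP0) (Pool.Agent.H261R2.CM.D_toC_ne _ hF)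
        (Pool.Agent.H261R2.CM.D_toC_ne _ hH0) ?_ ?_ ?_ hzF hzH hout
      · unfold toC
        rw [Polynomial.map_add, Complex.ofReal_one, C_1, one_mul]
      · unfold toC
        rw [natDegree_map_eq_of_injective (RingHom.injective_int _),
          natDegree_map_eq_of_injective (RingHom.injective_int _)]
        exact hdegP
      · unfold toC
        rw [natDegree_map_eq_of_injective (RingHom.injective_int _),
          natDegree_map_eq_of_injective (RingHom.injective_int _)]
        exact hdeg.trans hdegP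
    have hPpos : 0 < m1 (F + H) := lt_of_lt_of_le one_pos (Pool.Agent.Y820.LB.one_le_m1 hP0)
    have hmax : max (m1 F) (m1 H) ≤ 2 * m1 H := max_le (by linarith) (by linarith)
    have hmax0 : 0 < max (m1 F) (m1 H) := lt_max_of_lt_left (by linarith)
    have hpair : mx1 F H ≤ Real.log (((1 + 1) * bd k ^ k) ^ 3 * max (m1 F) (m1 H)) := by
      refine le_trans ?_ (Real.log_le_log hPpos hcmp)
      rw [Pool.Agent.H261R2.CM.D_log_m1]
      refine intervalIntegral.integral_mono_ae zero_le_one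
        (Pool.Agent.H261R2.CM.mx1_intervalIntegrable _ _ hF)
        (Pool.Agent.H261R2.CM.D_intervalIntegrable_log (F + H)) ?_
      filter_upwards [Pool.Agent.H261R2.CM.D_ae_ne F hF] with t h1
      have h4 : 0 < ‖ev1 F t‖ := norm_pos_iff.mpr h1
      refine Real.log_le_log (lt_max_of_lt_left h4) (max_le ?_ ?_)
      · exact hzF (ez t) (Pool.Agent.H261R2.CM.D_norm_ez t)
      · exact hzH (ez t) (Pool.Agent.H261R2.CM.D_norm_ez t)
    set K := mx1 F H with hK
    have hK1 : K ≤ 3 * (Real.log (1 + 1) + k * Real.log (bd k)) + (Real.log 2 + g) := by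
      refine hpair.trans ?_
      rw [Real.log_mul (by positivity) hmax0.ne', Real.log_pow, Real.log_mul (by norm_num)
        (by positivity), Real.log_pow]
      have h4 := Real.log_le_log hmax0 hmax
      rw [Real.log_mul (by norm_num) (by linarith)] at h4
      push_cast
      linarith
    have hbd4 : Real.log (bd k) ≤ 4 * Real.log ((k : ℝ) + 2) := by
      rw [show 4 * Real.log ((k : ℝ) + 2) = ((4 : ℕ) : ℝ) * Real.log ((k : ℝ) + 2) by norm_num,
        ← Real.log_pow]
      refine Real.log_le_log hbd ?_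
      unfold bd
      nlinarith [mul_nonneg hk0 hk0, mul_nonneg hk0 (mul_nonneg hk0 hk0),
        mul_nonneg (mul_nonneg hk0 hk0) (mul_nonneg hk0 hk0)]
    have hl2' : Real.log 2 ≤ 1 := by
      have := Real.log_le_sub_one_of_pos (show (0 : ℝ) < 2 by norm_num)
      linarith
    have hl11 : Real.log (1 + 1) ≤ 1 := by
      have := Real.log_le_sub_one_of_pos (show (0 : ℝ) < 1 + 1 by norm_num)
      linarith
    have hK2 : 1 + K ≤ 12 * x := by
      have h5 := mul_le_mul_of_nonneg_left hbd4 hk0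
      have h6 := mul_nonneg hk0 hlk
      rw [hx]
      nlinarith
    have hK0 : 0 ≤ K := by
      have h5 : Real.log (m1 F) ≤ K := by
        rw [Pool.Agent.H261R2.CM.D_log_m1]
        refine intervalIntegral.integral_mono_ae zero_le_one
          (Pool.Agent.H261R2.CM.D_intervalIntegrable_log _)
          (Pool.Agent.H261R2.CM.mx1_intervalIntegrable _ _ hF) ?_
        filter_upwards [Pool.Agent.H261R2.CM.D_ae_ne F hF] with t h1
        exact Real.log_le_log (norm_pos_iff.mpr h1) (le_max_left _ _)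
      exact (Real.log_nonneg hM.le).trans h5
    have hratio : (1 + ((H.natDegree : ℕ) : ℝ) / (((1 : ℕ) : ℝ) * (F.natDegree : ℝ))) ≤ 2 := by
      rw [Nat.cast_one, one_mul]
      have h5 : ((H.natDegree : ℕ) : ℝ) ≤ (F.natDegree : ℝ) := by exact_mod_cast hdeg
      have h6 : (0 : ℝ) < (F.natDegree : ℝ) := by exact_mod_cast hN0
      have h7 : ((H.natDegree : ℕ) : ℝ) / (F.natDegree : ℝ) ≤ 1 := by
        rw [div_le_one h6]
        exact h5
      linarith
    have hratio0 : 0 ≤ ((H.natDegree : ℕ) : ℝ) / (((1 : ℕ) : ℝ) * (F.natDegree : ℝ)) := by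
      positivity
    refine le_trans ?_ h3
    have h8 : (1 + ((H.natDegree : ℕ) : ℝ) / (((1 : ℕ) : ℝ) * (F.natDegree : ℝ))) *
        (1 + K / ((1 : ℕ) : ℝ)) ≤ 24 * x := by
      rw [Nat.cast_one, div_one]
      rw [Nat.cast_one] at hratio hratio0
      have h9 := mul_le_mul hratio hK2 (by linarith) (by norm_num : (0 : ℝ) ≤ 2)
      linarith
    have h9 : 0 < (1 + ((H.natDegree : ℕ) : ℝ) / (((1 : ℕ) : ℝ) * (F.natDegree : ℝ))) *
        (1 + K / ((1 : ℕ) : ℝ)) := by
      have h10 : 0 ≤ K / ((1 : ℕ) : ℝ) := by positivity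
      positivity
    calc min (c / 24 ^ 3) (Real.log 2) / x ^ 3 ≤ (c / 24 ^ 3) / x ^ 3 :=
          div_le_div_of_nonneg_right (min_le_left _ _) (by positivity)
      _ = c / (24 * x) ^ 3 := by
          rw [mul_pow, div_div]
      _ ≤ _ := div_le_div_of_nonneg_left hc.le (pow_pos h9 3)
          (pow_le_pow_left₀ h9.le h8 3)

end

end Pool.Agent.H270.SP
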