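import Pool.Agent.H270.SP.Rec

/-!
# Bounded companions of reciprocal polynomials
-/

set_option autoImplicit false

namespace Pool.Agent.H270.SP

open Matrix Polynomial Filter Topology MeasureTheory
open Pool.Agent.H261R2.CM (toC ez ev1 m1 mx1 LL LL_mono)

noncomputable section

theorem cmp_rec (hI : S_int) (hJ : S_J) (k : ℕ) (F H : ℤ[X]) (hF : F ≠ 0) (hH0 : H ≠ 0)
    (hP0 : F + H ≠ 0) (hdegF : F.natDegree ≤ (F + H).natDegree)
    (hdegH : H.natDegree ≤ (F + H).natDegree)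
    (hzF : ∀ z : ℂ, ‖z‖ = 1 → ‖(toC F).eval z‖ ≤ ‖(toC (F + H)).eval z‖)
    (hzH : ∀ z : ℂ, ‖z‖ = 1 → ‖(toC H).eval z‖ ≤ ‖(toC (F + H)).eval z‖)
    (hout : ((toC (F + H)).roots.filter fun z => 1 < ‖z‖).card ≤ k) :
    m1 (F + H) ≤ ((1 + 1) * bd k ^ k) ^ 3 * max (m1 F) (m1 H) := by
  refine cmpK hI hJ k (toC (F + H)) (toC F) (toC H) 1 (by norm_num)
    (Pool.Agent.H261R2.CM.D_toC_ne _ hP0) (Pool.Agent.H261R2.CM.D_toC_ne _ hF)
    (Pool.Agent.H261R2.CM.D_toC_ne _ hH0) ?_ ?_ ?_ hzF hzH hout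
  · unfold toC
    rw [Polynomial.map_add, Complex.ofReal_one, C_1, one_mul]
  · unfold toC
    rw [natDegree_map_eq_of_injective (RingHom.injective_int _),
      natDegree_map_eq_of_injective (RingHom.injective_int _)]
    exact hdegF
  · unfold toC
    rw [natDegree_map_eq_of_injective (RingHom.injective_int _),
      natDegree_map_eq_of_injective (RingHom.injective_int _)]
    exact hdegH

theorem mem_rec (hI : S_int) (hJ : S_J) (k : ℕ) (F H : ℤ[X]) (hF : F ≠ 0) (hH0 : H ≠ 0)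
    (hP0 : F + H ≠ 0) (hdegF : F.natDegree ≤ (F + H).natDegree)
    (hdegH : H.natDegree ≤ (F + H).natDegree)
    (hzF : ∀ z : ℂ, ‖z‖ = 1 → ‖(toC F).eval z‖ ≤ ‖(toC (F + H)).eval z‖)
    (hzH : ∀ z : ℂ, ‖z‖ = 1 → ‖(toC H).eval z‖ ≤ ‖(toC (F + H)).eval z‖)
    (hout : ((toC (F + H)).roots.filter fun z => 1 < ‖z‖).card ≤ k)
    (hcop : ∀ z : ℂ, 1 < ‖z‖ → (toC F).eval z = 0 → (toC H).eval z ≠ 0) :
    m1 F ∈ LL (Real.log (((1 + 1) * bd k ^ k) ^ 3 * max (m1 F) (m1 H))) := by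
  have hcmp := cmp_rec hI hJ k F H hF hH0 hP0 hdegF hdegH hzF hzH hout
  have hPpos : 0 < m1 (F + H) := lt_of_lt_of_le one_pos (Pool.Agent.Y820.LB.one_le_m1 hP0)
  have hpair : mx1 F H ≤ Real.log (((1 + 1) * bd k ^ k) ^ 3 * max (m1 F) (m1 H)) := by
    refine le_trans ?_ (Real.log_le_log hPpos hcmp)
    rw [Pool.Agent.H261R2.CM.D_log_m1]
    refine intervalIntegral.integral_mono_ae zero_le_one
      (Pool.Agent.H261R2.CM.mx1_intervalIntegrable _ _ hF)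
      (Pool.Agent.H261R2.CM.D_intervalIntegrable_log (F + H)) ?_
    filter_upwards [Pool.Agent.H261R2.CM.D_ae_ne F hF] with t h1
    have h4 : 0 < ‖ev1 F t‖ := norm_pos_iff.mpr h1
    refine Real.log_le_log (lt_max_of_lt_left h4) (max_le ?_ ?_)
    · exact hzF (ez t) (Pool.Agent.H261R2.CM.D_norm_ez t)
    · exact hzH (ez t) (Pool.Agent.H261R2.CM.D_norm_ez t)
  exact LL_mono hpair (pair_mem F H hF hH0 hcop)

end

end Pool.Agent.H270.SP
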